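import Pool.Agent.Lib.MP_a542cf_al.R.Core3

/-!
# Choice of the threshold
-/

namespace MW

open Filter

/-- a threshold for all `p ≤ X` with `c (T^2+4)^m ≤ exp((log X)^θ)`, for every `θ > 2/3` -/
theorem asym (θ : ℝ) (hθ : 2 / 3 < θ) (c m : ℕ) : ∃ X₀ : ℕ, ∀ X : ℕ, X₀ ≤ X → ∃ T : ℕ, 1 ≤ T ∧
    (∀ p : ℕ, 2 ≤ p → p ≤ X → Thr p T) ∧
    ((c * (T ^ 2 + 4) ^ m : ℕ) : ℝ) ≤ Real.exp ((Real.log X) ^ θ) := by
  set θ' : ℝ := (2 / 3 + min θ 1) / 2 with hθ'
  have h1 : 2 / 3 < min θ 1 := lt_min hθ (by norm_num)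
  have h2 : min θ 1 ≤ θ := min_le_left _ _
  have h3 : min θ 1 ≤ 1 := min_le_right _ _
  have ha : 2 / 3 < θ' := by rw [hθ']; linarith
  have hb : θ' < 1 := by rw [hθ']; linarith
  have hc : θ' < θ := by rw [hθ']; linarith
  obtain ⟨C, hC, hT⟩ := threshold θ' ha hb
  have hlog : Tendsto (fun X : ℕ => Real.log (X : ℝ)) atTop atTop :=
    Real.tendsto_log_atTop.comp tendsto_natCast_atTop_atTop
  have e1 := ((tendsto_rpow_atTop (y := θ - θ') (by linarith)).comp hlog).eventually_ge_atTop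
    (2 * m * C + 1)
  have e2 := ((tendsto_rpow_atTop (y := θ') (by linarith)).comp hlog).eventually_ge_atTop
    (Real.log (c * 8 ^ m + 1))
  have e3 := hlog.eventually_ge_atTop 1
  obtain ⟨X₀, hX₀⟩ := eventually_atTop.1 (e1.and (e2.and e3))
  refine ⟨X₀, fun X hX => ?_⟩
  obtain ⟨f1, f2, f3⟩ := hX₀ X hX
  simp only [Function.comp] at f1 f2
  set L : ℝ := Real.log X with hL
  have hL0 : 0 < L := by linarith
  set z : ℝ := C * L ^ θ' with hz
  have hz0 : 0 ≤ z := by positivity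
  set T : ℕ := ⌈Real.exp z⌉₊ with hTd
  have hT1 : Real.exp z ≤ T := Nat.le_ceil _
  have hT2 : (T : ℝ) ≤ 2 * Real.exp z := by
    have h5 := (Nat.ceil_lt_add_one (Real.exp_pos z).le).le
    have h6 : 1 ≤ Real.exp z := Real.one_le_exp hz0
    linarith
  refine ⟨T, ?_, ?_, ?_⟩
  · have : (0 : ℝ) < T := lt_of_lt_of_le (Real.exp_pos z) hT1
    exact_mod_cast this
  · intro p hp2 hpX t ht
    refine hT X p t hp2 (by exact_mod_cast hpX) ?_
    exact hT1.trans (by exact_mod_cast ht)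
  · have h7 : ((T : ℝ) ^ 2 + 4) ≤ 8 * Real.exp (2 * z) := by
      have h8 : Real.exp (2 * z) = Real.exp z ^ 2 := by rw [← Real.exp_nat_mul]; norm_num
      have h6 : 1 ≤ Real.exp z := Real.one_le_exp hz0
      have h9 : (T : ℝ) ^ 2 ≤ (2 * Real.exp z) ^ 2 := by gcongr
      rw [h8]
      nlinarith
    have h10 : L ^ θ = L ^ (θ - θ') * L ^ θ' := by
      rw [← Real.rpow_add hL0]
      congr 1
      ring
    have h11 : 0 < L ^ θ' := Real.rpow_pos_of_pos hL0 _
    have h12 : (0 : ℝ) < c * 8 ^ m + 1 := by positivity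
    push_cast
    calc (c : ℝ) * ((T : ℝ) ^ 2 + 4) ^ m ≤ c * (8 * Real.exp (2 * z)) ^ m := by gcongr
      _ = (c * 8 ^ m) * Real.exp (m * (2 * z)) := by
          rw [mul_pow, ← Real.exp_nat_mul]
          ring
      _ ≤ (c * 8 ^ m + 1) * Real.exp (m * (2 * z)) := by
          refine mul_le_mul_of_nonneg_right (by linarith) (Real.exp_pos _).le
      _ = Real.exp (Real.log (c * 8 ^ m + 1)) * Real.exp (m * (2 * z)) := by
          rw [Real.exp_log h12]
      _ = Real.exp (Real.log (c * 8 ^ m + 1) + m * (2 * z)) := by rw [Real.exp_add]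
      _ ≤ Real.exp (L ^ θ) := by
          rw [Real.exp_le_exp, h10, hz]
          nlinarith [mul_le_mul_of_nonneg_right f1 h11.le]

end MW
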