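import Pool.Agent.Lib.MP_a542cf_al.R.Middle3
import Pool.Agent.Lib.MP_a542cf_al.Final

/-!
# Outside the giant orbit all regular coordinates have order below the refined threshold
-/

namespace MW

/-- `T` is a threshold for the middle game -/
def Thr (p T : ℕ) : Prop := ∀ t, T ≤ t → 2 ^ 21 * (Dt p t) ^ 3 ≤ t

theorem thr_dv (p : ℕ) : Thr p (2 ^ 21 * (Dv p) ^ 3) := fun t ht =>
  (Nat.mul_le_mul_left _ (Nat.pow_le_pow_left (dt_le_dv p t) 3)).trans ht

theorem Thr.min {p T T' : ℕ} (h : Thr p T) (h' : Thr p T') : Thr p (min T T') := by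
  rcases le_total T T' with h1 | h1
  · rwa [min_eq_left h1]
  · rwa [min_eq_right h1]

theorem core3 : ∃ p₀ : ℕ, ∀ (p : ℕ) [Fact p.Prime], p₀ ≤ p → ∀ (K : Type) [Field K]
    [Fintype K] [Algebra (ZMod p) K], Fintype.card K = p ^ 2 → ∀ κ : ZMod p, κ ≠ 4 →
    ∀ G, GiantProps p K κ G → ∀ T : ℕ, Thr p T →
    ∀ O, Inv O → (∀ v ∈ O, OnX κ v) → Disjoint O G →
    ∀ x y z, (x, y, z) ∈ O → Reg κ x → ∀ t, HasOrd K x t → t < T := by
  obtain ⟨p₄, h₄⟩ := dvBound 12
  refine ⟨p₄ + 2 ^ 144, ?_⟩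
  intro p _ hp K _ _ _ hK κ hκ G hG T hT O hO hX hdis x y z hv hx t ht
  have hp4 : p₄ ≤ p := by omega
  have hp5 : 2 ^ 144 ≤ p := by omega
  have hp2' : p ≠ 2 := by
    have : 2 < 2 ^ 144 := by norm_num
    omega
  have hDv : 1 ≤ Dv p := by
    unfold Dv
    have : 0 < (Nat.divisors (p + 1)).card := Finset.card_pos.2 ⟨1, by simp⟩
    omega
  have hD6 : 2 ^ 38 * (Dv p) ^ 6 ≤ p := by
    have h5 : (2 ^ 38 * (Dv p) ^ 6) ^ 2 ≤ p ^ 2 := by
      calc (2 ^ 38 * (Dv p) ^ 6) ^ 2 = 2 ^ 76 * (Dv p ^ 12) := by ring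
        _ ≤ p * p := Nat.mul_le_mul (le_trans (by norm_num) hp5) (h₄ p hp4)
        _ = p ^ 2 := by ring
    exact (Nat.pow_le_pow_iff_left (by norm_num)).1 h5
  have hDp : 2 ^ 24 * (Dv p) ^ 4 ≤ p := by
    refine le_trans ?_ hD6
    exact Nat.mul_le_mul (by norm_num) (Nat.pow_le_pow_right hDv (by norm_num))
  by_contra hcon
  rw [not_lt] at hcon
  obtain ⟨P, hP⟩ : ∃ P : ℕ → Prop, P = fun s => ∃ x y z, (x, y, z) ∈ O ∧ Reg κ x ∧
    HasOrd K x s := ⟨_, rfl⟩
  classical
  have hPt : P t := by rw [hP]; exact ⟨x, y, z, hv, hx, ht⟩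
  have hbd : ∀ s, P s → s ≤ p + 1 := by
    intro s hs
    rw [hP] at hs
    obtain ⟨x', y', z', -, -, h5⟩ := hs
    have hpp := (Fact.out : p.Prime).two_le
    rcases hasOrd_dvd p K h5 with h6 | h6
    · exact (Nat.le_of_dvd (by omega) h6).trans (by omega)
    · exact Nat.le_of_dvd (by omega) h6
  have hmax1 : P (Nat.findGreatest P (p + 1)) := Nat.findGreatest_spec (hbd t hPt) hPt
  have hmax2 : ∀ s, P s → s ≤ Nat.findGreatest P (p + 1) := fun s hs =>
    Nat.le_findGreatest (hbd s hs) hs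
  obtain ⟨S, hS⟩ : ∃ S : ℕ, S = Nat.findGreatest P (p + 1) := ⟨_, rfl⟩
  rw [← hS] at hmax1 hmax2
  rw [hP] at hmax1
  obtain ⟨x', y', z', h5, h6, h7⟩ := hmax1
  have hTS : T ≤ S := hcon.trans (hmax2 t hPt)
  rcases middle3 p hp2' K hK κ hκ O hO hX hDp x' y' z' h5 h6 S h7 (by
    intro a b c habc ha s hs
    exact hmax2 s (by rw [hP]; exact ⟨a, b, c, habc, ha, hs⟩)) with h8 | h8
  · exact absurd (hT S hTS) (not_le.2 h8)
  · have h9 : p < 128 * Dv p * S := lt_of_lt_of_le h8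
      (Nat.mul_le_mul_right _ (Nat.mul_le_mul_left _ (dt_le_dv p S)))
    have h10 : 2 ^ 31 * (Dv p) ^ 5 ≤ S := by
      by_contra hlt
      rw [not_le] at hlt
      have h11 : 128 * Dv p * S ≤ 128 * Dv p * (2 ^ 31 * Dv p ^ 5) :=
        Nat.mul_le_mul_left _ hlt.le
      have h12 : 128 * Dv p * (2 ^ 31 * Dv p ^ 5) = 2 ^ 38 * Dv p ^ 6 := by ring
      omega
    exact Set.disjoint_left.1 hdis h5 (hG.spec x' y' z' (hX _ h5) h6 S h7 h10)

/-- points with a regular coordinate of order at least the threshold lie in the giant orbit -/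
theorem spec3 : ∃ p₀ : ℕ, ∀ (p : ℕ) [Fact p.Prime], p₀ ≤ p → ∀ (K : Type) [Field K]
    [Fintype K] [Algebra (ZMod p) K], Fintype.card K = p ^ 2 → ∀ κ : ZMod p, κ ≠ 4 →
    ∀ G, GiantProps p K κ G → ∀ T : ℕ, Thr p T →
    ∀ x y z, OnX κ (x, y, z) → Reg κ x → ∀ t, HasOrd K x t → T ≤ t → (x, y, z) ∈ G := by
  obtain ⟨p₀, h⟩ := core3
  refine ⟨p₀, fun p _ hp K _ _ _ hK κ hκ G hG T hT x y z hX hx t ht htT => ?_⟩
  by_contra hcon
  exact absurd (h p hp K hK κ hκ G hG T hT ({v | OnX κ v} \ G) (inv_diff (inv_surface κ) hG.inv)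
    (fun v hv => hv.1) Set.disjoint_sdiff_left x y z ⟨hX, hcon⟩ hx t ht) (not_lt.2 htT)

private lemma oc3_sq {F : Type*} [Field F] [DecidableEq F] [Fintype F] (c : F) :
    (Finset.univ.filter (fun x : F => x ^ 2 = c)).card ≤ 2 := by
  by_cases h : ∃ x0 : F, x0 ^ 2 = c
  · obtain ⟨x0, h0⟩ := h
    refine (Finset.card_le_card (t := {x0, -x0}) ?_).trans Finset.card_le_two
    intro x hx
    rw [Finset.mem_filter] at hx
    rw [Finset.mem_insert, Finset.mem_singleton]
    have h1 : (x - x0) * (x + x0) = 0 := by linear_combination hx.2 - h0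
    rcases mul_eq_zero.1 h1 with h2 | h2
    · exact Or.inl (sub_eq_zero.1 h2)
    · exact Or.inr (eq_neg_of_add_eq_zero_left h2)
  · have h1 : Finset.univ.filter (fun x : F => x ^ 2 = c) = ∅ := by
      rw [Finset.filter_eq_empty_iff]
      intro x _ hx
      exact h ⟨x, hx⟩
    rw [h1]
    simp

private lemma oc3_quad {F : Type*} [Field F] [DecidableEq F] [Fintype F] (κ x y : F) :
    (Finset.univ.filter (fun z : F => x ^ 2 + y ^ 2 + z ^ 2 - x * y * z = κ)).card ≤ 2 := by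
  by_cases h : ∃ z0 : F, x ^ 2 + y ^ 2 + z0 ^ 2 - x * y * z0 = κ
  · obtain ⟨z0, h0⟩ := h
    refine (Finset.card_le_card (t := {z0, x * y - z0}) ?_).trans Finset.card_le_two
    intro z hz
    rw [Finset.mem_filter] at hz
    rw [Finset.mem_insert, Finset.mem_singleton]
    have h1 : (z - z0) * (z - (x * y - z0)) = 0 := by linear_combination hz.2 - h0
    rcases mul_eq_zero.1 h1 with h2 | h2
    · exact Or.inl (sub_eq_zero.1 h2)
    · exact Or.inr (sub_eq_zero.1 h2)
  · have h1 : Finset.univ.filter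
        (fun z : F => x ^ 2 + y ^ 2 + z ^ 2 - x * y * z = κ) = ∅ := by
      rw [Finset.filter_eq_empty_iff]
      intro x _ hx
      exact h ⟨x, hx⟩
    rw [h1]
    simp

/-- invariant sets all of whose regular coordinates have order below `T` are small -/
theorem openCard3 (p : ℕ) [Fact p.Prime] (hp2 : p ≠ 2) (K : Type) [Field K] [Fintype K]
    [Algebra (ZMod p) K] (hK : Fintype.card K = p ^ 2) (κ : ZMod p)
    (O : Set (ZMod p × ZMod p × ZMod p)) (hO : Inv O) (hX : ∀ v ∈ O, OnX κ v) (T : ℕ)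
    (h : ∀ x y z, (x, y, z) ∈ O → Reg κ x → ∀ s, HasOrd K x s → s < T) :
    O.ncard ≤ 2 * (4 + Dt p T * T) ^ 2 := by
  classical
  have hp : p.Prime := Fact.out
  let S : Finset ℕ := ((Nat.divisors (p - 1)) ∪ (Nat.divisors (p + 1))).filter (fun s => s < T)
  have hS : S.card ≤ Dt p T := by
    unfold Dt
    refine (Finset.card_le_card (t := (Nat.divisors (p - 1)).filter (fun s => s ≤ T) ∪
      (Nat.divisors (p + 1)).filter (fun s => s ≤ T)) ?_).trans (Finset.card_union_le _ _)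
    intro s hs
    rw [Finset.mem_filter, Finset.mem_union] at hs
    rw [Finset.mem_union, Finset.mem_filter, Finset.mem_filter]
    rcases hs.1 with h1 | h1
    · exact Or.inl ⟨h1, hs.2.le⟩
    · exact Or.inr ⟨h1, hs.2.le⟩
  let W : Finset (ZMod p) := (Finset.univ.filter (fun x : ZMod p => x ^ 2 = 4) ∪
    Finset.univ.filter (fun x : ZMod p => x ^ 2 = κ)) ∪
      S.biUnion (fun s => Finset.univ.filter (fun x : ZMod p => HasOrd K x s))
  have hW : W.card ≤ 4 + Dt p T * T := by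
    refine (Finset.card_union_le _ _).trans ?_
    refine add_le_add ?_ ?_
    · refine (Finset.card_union_le _ _).trans ?_
      have h1 := oc3_sq (4 : ZMod p)
      have h2 := oc3_sq κ
      omega
    · refine (Finset.card_biUnion_le_card_mul S _ T ?_).trans (Nat.mul_le_mul_right T hS)
      intro s hs
      have h1 : s < T := (Finset.mem_filter.1 hs).2
      have h2 := hasOrd_ncard p K s
      rw [← Finset.coe_filter_univ, Set.ncard_coe_finset] at h2
      exact h2.trans h1.le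
  have hmem : ∀ x y z, (x, y, z) ∈ O → x ∈ W := by
    intro x y z hxyz
    by_cases hreg : Reg κ x
    · obtain ⟨t, ht⟩ := hasOrd_exists p K hp2 hK x
      have h1 := h x y z hxyz hreg t ht
      apply Finset.mem_union_right
      rw [Finset.mem_biUnion]
      refine ⟨t, ?_, Finset.mem_filter.2 ⟨Finset.mem_univ _, ht⟩⟩
      rw [Finset.mem_filter, Finset.mem_union, Nat.mem_divisors, Nat.mem_divisors]
      refine ⟨?_, h1⟩
      have h2 := hp.two_le
      rcases hasOrd_dvd p K ht with h3 | h3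
      · exact Or.inl ⟨h3, by omega⟩
      · exact Or.inr ⟨h3, by omega⟩
    · apply Finset.mem_union_left
      unfold Reg at hreg
      rw [not_and_or, not_not, not_not] at hreg
      rcases hreg with h1 | h1
      · exact Finset.mem_union_left _ (Finset.mem_filter.2 ⟨Finset.mem_univ _, h1⟩)
      · exact Finset.mem_union_right _ (Finset.mem_filter.2 ⟨Finset.mem_univ _, h1⟩)
  let U : Finset (ZMod p × ZMod p × ZMod p) := (W ×ˢ W).biUnion (fun q =>
    (Finset.univ.filter (fun z : ZMod p =>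
      q.1 ^ 2 + q.2 ^ 2 + z ^ 2 - q.1 * q.2 * z = κ)).image (fun z => (q.1, q.2, z)))
  have hOU : O ⊆ (U : Set (ZMod p × ZMod p × ZMod p)) := by
    rintro ⟨x, y, z⟩ hv
    rw [Finset.mem_coe, Finset.mem_biUnion]
    refine ⟨(x, y), Finset.mem_product.2 ⟨hmem x y z hv, hmem y x z (hO.swap12 x y z hv)⟩, ?_⟩
    rw [Finset.mem_image]
    exact ⟨z, Finset.mem_filter.2 ⟨Finset.mem_univ _, hX _ hv⟩, rfl⟩
  have h1 : O.ncard ≤ U.card := by
    rw [← Set.ncard_coe_finset]
    exact Set.ncard_le_ncard hOU (Finset.finite_toSet _)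
  have h2 : U.card ≤ (W ×ˢ W).card * 2 := by
    apply Finset.card_biUnion_le_card_mul
    intro q _
    exact Finset.card_image_le.trans (oc3_quad κ q.1 q.2)
  rw [Finset.card_product] at h2
  have h3 : W.card * W.card ≤ (4 + Dt p T * T) * (4 + Dt p T * T) := Nat.mul_le_mul hW hW
  nlinarith

theorem dt_le (p T : ℕ) : Dt p T ≤ 2 * T := by
  have h : ∀ n : ℕ, (n.divisors.filter (fun s => s ≤ T)).card ≤ T := by
    intro n
    have h1 : n.divisors.filter (fun s => s ≤ T) ⊆ Finset.Icc 1 T := by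
      intro s hs
      rw [Finset.mem_filter] at hs
      exact Finset.mem_Icc.2 ⟨Nat.pos_of_mem_divisors hs.1, hs.2⟩
    simpa using Finset.card_le_card h1
  have h1 := h (p - 1)
  have h2 := h (p + 1)
  unfold Dt
  omega

end MW
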