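import Mathlib

/-! MX-DetCoeff: top coefficient of a determinant of polynomials with degree bounds. -/

namespace MW

open Polynomial

private theorem prod_coeff_le {R : Type*} [CommRing R] {ι : Type*} [DecidableEq ι]
    (s : Finset ι) (f : ι → R[X]) (n : ι → ℕ) (h : ∀ i, (f i).natDegree ≤ n i) :
    (∏ i ∈ s, f i).natDegree ≤ ∑ i ∈ s, n i ∧
      (∏ i ∈ s, f i).coeff (∑ i ∈ s, n i) = ∏ i ∈ s, (f i).coeff (n i) := by
  induction s using Finset.induction_on with
  | empty => simp
  | insert a s ha ih =>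
    rw [Finset.prod_insert ha, Finset.sum_insert ha, Finset.prod_insert ha]
    refine ⟨(natDegree_mul_le).trans (add_le_add (h a) ih.1), ?_⟩
    rw [coeff_mul_add_eq_of_natDegree_le (h a) ih.1, ih.2]

/-- If `deg M i k ≤ a k + b i` then `deg det M ≤ ∑ a + ∑ b`, and the coefficient of `det M` in this
degree is the determinant of the corresponding coefficients. -/
theorem det_coeff {R : Type*} [CommRing R] {ι : Type*} [Fintype ι] [DecidableEq ι]
    (M : Matrix ι ι R[X]) (a b : ι → ℕ) (h : ∀ i k, (M i k).natDegree ≤ a k + b i) :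
    M.det.natDegree ≤ ∑ k, a k + ∑ i, b i ∧
      M.det.coeff (∑ k, a k + ∑ i, b i) =
        (Matrix.of fun i k => (M i k).coeff (a k + b i)).det := by
  have hs : ∀ σ : Equiv.Perm ι, ∑ i, (a i + b (σ i)) = ∑ k, a k + ∑ i, b i := by
    intro σ
    rw [Finset.sum_add_distrib, Equiv.sum_comp σ b]
  have key : ∀ σ : Equiv.Perm ι, (∏ i, M (σ i) i).natDegree ≤ ∑ k, a k + ∑ i, b i ∧
      (∏ i, M (σ i) i).coeff (∑ k, a k + ∑ i, b i) = ∏ i, (M (σ i) i).coeff (a i + b (σ i)) := by
    intro σ
    have := prod_coeff_le Finset.univ (fun i => M (σ i) i) (fun i => a i + b (σ i))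
      (fun i => h (σ i) i)
    rwa [hs σ] at this
  rw [Matrix.det_apply, Matrix.det_apply]
  constructor
  · refine natDegree_sum_le_of_forall_le _ _ fun σ _ => ?_
    exact (natDegree_smul_le _ _).trans (key σ).1
  · rw [finsetSum_coeff]
    refine Finset.sum_congr rfl fun σ _ => ?_
    rw [coeff_smul, (key σ).2]
    rfl

end MW
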