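import Pool.Agent.Lib.MP_a542cf_al.R.Asym
import Pool.Agent.Lib.MP_a542cf_al.FinalC
import Pool.Agent.Lib.MP_a542cf_al.H.Final2

/-!
# The main theorems with the refined thresholds
-/

namespace MW

/-- one prime `p` and a threshold `T`: giant orbits, remainder and exactness -/
theorem main3 : ∃ p₀ : ℕ, ∀ (p : ℕ) [Fact p.Prime], p₀ ≤ p → ∀ T : ℕ, Thr p T →
    ∀ k : ZMod p, k ≠ 2 →
    ∃ S ⊆ orbitsAt p k, S.ncard = expected p k ∧
      {P : SL2 (ZMod p) × SL2 (ZMod p) | IsGen P ∧ lev P = k ∧ ∀ o ∈ S, P ∉ o}.ncard ≤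
        2 * (4 + Dt p T * T) ^ 2 * (8 * p ^ 3) ∧
      ((∀ g : SL2 (ZMod p), tr g = k → g ≠ -1 →
          2 * (2 * (4 + Dt p T * T) ^ 2) < orderOf g) → S = orbitsAt p k) := by
  obtain ⟨p₁, hcore⟩ := core_props
  obtain ⟨p₂, hfin⟩ := final_G
  obtain ⟨p₃, hc3⟩ := core3
  refine ⟨p₁ + p₂ + p₃ + 5, ?_⟩
  intro p _ hp T hT k hk
  have hp5 : 5 ≤ p := by omega
  have hp2 : p ≠ 2 := by omega
  let : Fintype (GaloisField p 2) := Fintype.ofFinite _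
  have hK : Fintype.card (GaloisField p 2) = p ^ 2 := by
    rw [← Nat.card_eq_fintype_card, GaloisField.card p 2 (by norm_num)]
  have hk4 : k + 2 ≠ 4 := by intro h; apply hk; linear_combination h
  obtain ⟨G, hGP⟩ := hcore p (by omega) (GaloisField p 2) hK (k + 2) hk4
  obtain ⟨hcard, -⟩ := hfin p (by omega) (GaloisField p 2) hK k hk G hGP
  have hout : ({v | ∃ P, IsGen P ∧ lev P = k ∧ triple P = v} \ G).ncard ≤
      2 * (4 + Dt p T * T) ^ 2 := by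
    have hi := inv_diff (inv_gen k) hGP.inv
    have hx : ∀ v ∈ ({v | ∃ P, IsGen P ∧ lev P = k ∧ triple P = v} \ G), OnX (k + 2) v := by
      rintro v ⟨⟨P, hP, hPk, rfl⟩, _⟩
      exact onX_triple P (k + 2) (by rw [hPk]; ring)
    exact openCard3 p hp2 (GaloisField p 2) hK (k + 2) _ hi hx T
      (hc3 p (by omega) (GaloisField p 2) hK (k + 2) hk4 G hGP T hT _ hi hx
        Set.disjoint_sdiff_left)
  have hsub : giantSet p k G ⊆ orbitsAt p k := by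
    rintro o ⟨P, hP, hPk, _, rfl⟩
    exact ⟨P, hP, hPk, rfl⟩
  refine ⟨giantSet p k G, hsub, hcard, remainder_le p hp2 k hk G _ hout, ?_⟩
  intro hord
  have hemp := outside_empty p hp5 k hk G hGP.inv _ hout hord
  apply Set.Subset.antisymm hsub
  rintro o ⟨Q, hQ, hQk, rfl⟩
  refine ⟨Q, hQ, hQk, ?_, rfl⟩
  by_contra hQG
  have : triple Q ∈ ({v | ∃ P, IsGen P ∧ lev P = k ∧ triple P = v} \ G) :=
    ⟨⟨Q, hQ, hQk, rfl⟩, hQG⟩
  rw [hemp] at this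
  exact this

/-- The main theorem with the bounds `C τ^8` and `exp((log p)^θ)`, `θ > 2/3`. -/
theorem large_order3 (θ : ℝ) (hθ : 2 / 3 < θ) : ∃ C p₀ : ℕ, ∀ (p : ℕ) [Fact p.Prime], p₀ ≤ p →
    ∃ Y : ℕ, Y ≤ C * (Nat.divisors (p ^ 2 - 1)).card ^ 8 ∧
      (Y : ℝ) ≤ Real.exp ((Real.log p) ^ θ) ∧
    (∀ k : ZMod p, k ≠ 2 → ∃ S ⊆ orbitsAt p k, S.ncard = expected p k ∧
      {P : SL2 (ZMod p) × SL2 (ZMod p) | IsGen P ∧ lev P = k ∧ ∀ o ∈ S, P ∉ o}.ncard ≤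
        Y * p ^ 3 ∧
      ((∀ g : SL2 (ZMod p), tr g = k → g ≠ -1 → Y ≤ orderOf g) → S = orbitsAt p k)) ∧
    {k : ZMod p | k ≠ 2 ∧ numOrbits p k ≠ expected p k}.ncard ≤ Y ^ 2 ∧
    numOrbits p (-2) = expected p (-2) := by
  obtain ⟨p₁, hmain⟩ := main3
  obtain ⟨p₂, hasy⟩ := asym θ hθ 1024 2
  obtain ⟨p₃, hdv⟩ := dv_facts
  refine ⟨2 ^ 60, p₁ + p₂ + p₃ + 5, fun p _ hp => ?_⟩
  obtain ⟨T₂, hT21, hT2, hT2e⟩ := hasy p (by omega)
  have hthr2 := hT2 p (by omega) le_rfl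
  obtain ⟨hD12, -, -, hD1⟩ := hdv p (by omega)
  set T₁ : ℕ := 2 ^ 21 * (Dv p) ^ 3 with hT1
  have hthr := (thr_dv p).min hthr2
  rw [← hT1] at hthr
  set T := min T₁ T₂ with hTd
  set N : ℕ := 2 * (4 + Dt p T * T) ^ 2 with hN
  have hTT1 : T ≤ T₁ := min_le_left _ _
  have hTT2 : T ≤ T₂ := min_le_right _ _
  -- bounds for `8 N`
  have hN1 : 8 * N ≤ 2 ^ 60 * (Nat.divisors (p ^ 2 - 1)).card ^ 8 := by
    have h1 : Dt p T * T ≤ 2 ^ 21 * Dv p ^ 4 := by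
      calc Dt p T * T ≤ Dv p * (2 ^ 21 * Dv p ^ 3) := Nat.mul_le_mul (dt_le_dv p T) hTT1
        _ = 2 ^ 21 * Dv p ^ 4 := by ring
    have h2 : 1 ≤ Dv p ^ 4 := Nat.one_le_pow _ _ hD1
    have h3 : 4 + Dt p T * T ≤ 2 ^ 22 * Dv p ^ 4 := by omega
    calc 8 * N ≤ 8 * (2 * (2 ^ 22 * Dv p ^ 4) ^ 2) := by rw [hN]; gcongr
      _ = 2 ^ 48 * Dv p ^ 8 := by ring
      _ ≤ 2 ^ 48 * (2 * (Nat.divisors (p ^ 2 - 1)).card) ^ 8 := by
          gcongr
          exact dv_le p (by omega)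
      _ = 2 ^ 56 * (Nat.divisors (p ^ 2 - 1)).card ^ 8 := by ring
      _ ≤ _ := Nat.mul_le_mul_right _ (by norm_num)
  have hN2 : 8 * N ≤ 1024 * (T₂ ^ 2 + 4) ^ 2 := by
    have h1 : Dt p T * T ≤ 2 * T₂ ^ 2 := by
      calc Dt p T * T ≤ 2 * T * T := Nat.mul_le_mul_right _ (dt_le p T)
        _ ≤ 2 * T₂ * T₂ := Nat.mul_le_mul (Nat.mul_le_mul_left _ hTT2) hTT2
        _ = 2 * T₂ ^ 2 := by ring
    calc 8 * N ≤ 8 * (2 * (2 * (T₂ ^ 2 + 4)) ^ 2) := by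
          rw [hN]
          gcongr
          omega
      _ = 64 * (T₂ ^ 2 + 4) ^ 2 := by ring
      _ ≤ _ := Nat.mul_le_mul_right _ (by norm_num)
  have hNpos : 1 ≤ N := by
    rw [hN]
    have : 0 < 2 * (4 + Dt p T * T) ^ 2 := by positivity
    omega
  have hYp : 8 * N ≤ p := by
    have h2 : 2 * (2 ^ 70 * Dv p ^ 12) < p := hD12
    have h3 : Dv p ^ 8 ≤ Dv p ^ 12 := Nat.pow_le_pow_right hD1 (by norm_num)
    have h1 : Dt p T * T ≤ 2 ^ 21 * Dv p ^ 4 := by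
      calc Dt p T * T ≤ Dv p * (2 ^ 21 * Dv p ^ 3) := Nat.mul_le_mul (dt_le_dv p T) hTT1
        _ = 2 ^ 21 * Dv p ^ 4 := by ring
    have h4 : 1 ≤ Dv p ^ 4 := Nat.one_le_pow _ _ hD1
    have h5 : 8 * N ≤ 2 ^ 48 * Dv p ^ 8 := by
      calc 8 * N ≤ 8 * (2 * (2 ^ 22 * Dv p ^ 4) ^ 2) := by
            rw [hN]
            gcongr
            omega
        _ = 2 ^ 48 * Dv p ^ 8 := by ring
    have h6 : 2 ^ 48 * Dv p ^ 8 ≤ 2 ^ 70 * Dv p ^ 12 := Nat.mul_le_mul (by norm_num) h3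
    omega
  have h22 : (-2 : ZMod p) ≠ 2 := by
    intro h
    have h4 : ((4 : ℕ) : ZMod p) = 0 := by
      have : (4 : ZMod p) = 0 := by linear_combination -h
      exact_mod_cast this
    rw [ZMod.natCast_eq_zero_iff] at h4
    have := Nat.le_of_dvd (by norm_num) h4
    omega
  have hnum : ∀ k : ZMod p, k ≠ 2 → (∀ g : SL2 (ZMod p), tr g = k → g ≠ -1 →
      8 * N ≤ orderOf g) → numOrbits p k = expected p k := by
    intro k hk hord
    obtain ⟨S, hS, hc, _, h2⟩ := hmain p (by omega) T hthr k hk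
    unfold numOrbits
    rw [← h2 (fun g hg hg1 => lt_of_lt_of_le (by omega) (hord g hg hg1)), hc]
  have hneg : numOrbits p (-2) = expected p (-2) :=
    hnum (-2) h22 (fun g hg hg1 => hYp.trans (order_neg_two p (by omega) g hg hg1))
  refine ⟨8 * N, hN1, ?_, ?_, ?_, hneg⟩
  · refine le_trans ?_ hT2e
    exact_mod_cast hN2
  · intro k hk
    obtain ⟨S, hS, hc, hrem, hall⟩ := hmain p (by omega) T hthr k hk
    refine ⟨S, hS, hc, hrem.trans (le_of_eq (by rw [hN]; ring)), fun hord => hall ?_⟩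
    exact fun g hg hg1 => lt_of_lt_of_le (by omega) (hord g hg hg1)
  · have hsub : {k : ZMod p | k ≠ 2 ∧ numOrbits p k ≠ expected p k} ⊆
        {k : ZMod p | k ≠ 2 ∧ k ≠ -2 ∧ ∃ g : SL2 (ZMod p), tr g = k ∧
          orderOf g < 8 * N} := by
      rintro k ⟨hk, hne⟩
      have hk2 : k ≠ -2 := by
        rintro rfl
        exact hne hneg
      refine ⟨hk, hk2, ?_⟩
      by_contra hcon
      push Not at hcon
      exact hne (hnum k hk (fun g hg _ => hcon g hg))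
    exact (Set.ncard_le_ncard hsub (Set.toFinite _)).trans (levelCount p (by omega) _)

/-- all levels at `p`, if `p` is outside a small set depending on the threshold `T` -/
theorem all_levels3 : ∃ p₀ : ℕ, ∀ T : ℕ, ∃ B : Finset ℕ, B.card ≤ 3 * (T ^ 2 + 2) ^ 12 ∧
    ∀ (p : ℕ) [Fact p.Prime], p₀ ≤ p → p ∉ B → 64 * (T ^ 2 + 2) ^ 12 < p →
      Thr p T → ∀ k : ZMod p, k ≠ 2 → numOrbits p k = expected p k := by
  obtain ⟨p₁, hcore⟩ := core_props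
  obtain ⟨p₂, hfin⟩ := final_G
  obtain ⟨p₃, hex⟩ := exPrim
  obtain ⟨p₄, hsp⟩ := spec3
  refine ⟨p₁ + p₂ + p₃ + p₄ + 5, fun T => ?_⟩
  obtain ⟨B, hB, hsm⟩ := noSmall T
  refine ⟨B, hB, ?_⟩
  intro p _ hp hpB hpT hDT k hk
  let : Fintype (GaloisField p 2) := Fintype.ofFinite _
  have hK : Fintype.card (GaloisField p 2) = p ^ 2 := by
    rw [← Nat.card_eq_fintype_card, GaloisField.card p 2 (by norm_num)]
  have hk4 : k + 2 ≠ 4 := by intro h; apply hk; linear_combination h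
  obtain ⟨G, hGP⟩ := hcore p (by omega) (GaloisField p 2) hK (k + 2) hk4
  refine (hfin p (by omega) (GaloisField p 2) hK k hk G hGP).2 ?_
  intro P hP hPk
  obtain ⟨Q, t, hPQ, hreg, hord, htT⟩ := hsm p hpB (by omega) hpT (GaloisField p 2) hK
    (fun κ => hex p (by omega) (GaloisField p 2) hK κ) P hP (by rw [hPk]; exact hk)
  have hQX : OnX (k + 2) (triple Q) := by
    refine onX_triple Q (k + 2) ?_
    rw [← lev_nequiv hPQ, hPk]
    ring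
  rw [hPk] at hreg
  have hQG : triple Q ∈ G := by
    unfold triple at hQX ⊢
    exact hsp p (by omega) (GaloisField p 2) hK (k + 2) hk4 G hGP T hDT _ _ _ hQX hreg t hord htT
  exact (nequiv_mem hPQ G hGP.inv).2 hQG

/-- all levels for all primes up to `X` with at most `exp((log X)^θ)` exceptions -/
theorem all_levels_most3 (θ : ℝ) (hθ : 2 / 3 < θ) : ∃ X₀ : ℕ, ∀ X : ℕ, X₀ ≤ X →
    ∃ B : Finset ℕ, (B.card : ℝ) ≤ Real.exp ((Real.log X) ^ θ) ∧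
      ∀ (p : ℕ) [Fact p.Prime], p ≤ X → p ∉ B →
      ∀ k : ZMod p, k ≠ 2 → numOrbits p k = expected p k := by
  obtain ⟨p₀, hall⟩ := all_levels3
  obtain ⟨X₁, hX1⟩ := asym θ hθ (68 + p₀) 12
  refine ⟨X₁, fun X hX => ?_⟩
  obtain ⟨T, hT1, hT, hTe⟩ := hX1 X hX
  obtain ⟨B, hB, hBp⟩ := hall T
  refine ⟨B ∪ Finset.range (max p₀ (64 * (T ^ 2 + 2) ^ 12 + 1)), ?_, ?_⟩
  · refine le_trans ?_ hTe
    have h1 : (B ∪ Finset.range (max p₀ (64 * (T ^ 2 + 2) ^ 12 + 1))).card ≤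
        67 * (T ^ 2 + 2) ^ 12 + p₀ + 1 := by
      refine (Finset.card_union_le _ _).trans ?_
      rw [Finset.card_range]
      omega
    have h2 : (T ^ 2 + 2) ^ 12 ≤ (T ^ 2 + 4) ^ 12 := Nat.pow_le_pow_left (by omega) 12
    have h3 : 1 ≤ (T ^ 2 + 4) ^ 12 := Nat.one_le_pow _ _ (by omega)
    have h4 : p₀ ≤ p₀ * (T ^ 2 + 4) ^ 12 := Nat.le_mul_of_pos_right _ h3
    have h5 : (68 + p₀) * (T ^ 2 + 4) ^ 12 = 68 * (T ^ 2 + 4) ^ 12 + p₀ * (T ^ 2 + 4) ^ 12 := by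
      ring
    have h6 : (B ∪ Finset.range (max p₀ (64 * (T ^ 2 + 2) ^ 12 + 1))).card ≤
        (68 + p₀) * (T ^ 2 + 4) ^ 12 := by
      rw [h5]
      omega
    exact_mod_cast h6
  · intro p _ hpX hpB k hk
    rw [Finset.mem_union, not_or, Finset.mem_range, not_lt] at hpB
    obtain ⟨hpB1, hpB2⟩ := hpB
    exact hBp p (le_trans (le_max_left _ _) hpB2) hpB1
      (lt_of_lt_of_le (Nat.lt_succ_self _) (le_trans (le_max_right _ _) hpB2))
      (hT p (Fact.out : p.Prime).two_le hpX) k hk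

end MW
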