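import Pool.Agent.Lib.MP_a542cf_al.R.ZeroEst

/-! MX-IndW: linear independence from the zero estimate. -/

namespace MW

open Polynomial

theorem indW {K : Type*} [Field K] (p : ℕ) [Fact p.Prime] [CharP K p] (l : K) (h0 : l ≠ 0)
    (h1 : l ≠ 1) {ι : Type*} [Fintype ι] [DecidableEq ι] (a b : ι → ℕ) (b0 : ℕ)
    (hb : ∀ m, b m ≤ b0) (A : ℕ) (hp : ∀ m, a m + A ≤ p) (row : ι → Finset ι)
    (hrow : ∀ m, m ∈ row m)
    (H1 : ∀ m m', b m ≤ b m' → m' ∉ row m →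
      b m + (row m).card * (A + (row m).card) ≤ b m')
    (H2 : ∀ m, ∀ m₁ ∈ row m, ∀ m₂ ∈ row m, m₁ ≠ m₂ → a m₁ + A ≤ a m₂ ∨ a m₂ + A ≤ a m₁)
    (f : ι → K[X]) (hf : ∀ m, (f m).degree < (A : WithBot ℕ))
    (hsum : ∑ m, f m * (X ^ (a m) * (X - C l) ^ (b m) * (X - 1) ^ (b0 - b m)) = 0) :
    ∀ m, f m = 0 := by
  classical
  by_contra hne
  push Not at hne
  obtain ⟨m1, hm1⟩ := hne
  obtain ⟨m0, hm0, hmin⟩ := Finset.exists_min_image (Finset.univ.filter fun m => f m ≠ 0) b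
    ⟨m1, Finset.mem_filter.2 ⟨Finset.mem_univ _, hm1⟩⟩
  have hm0' : f m0 ≠ 0 := (Finset.mem_filter.1 hm0).2
  set S : Finset ι := (row m0).filter fun m => f m ≠ 0 with hS
  have hmS : m0 ∈ S := Finset.mem_filter.2 ⟨hrow m0, hm0'⟩
  have hcard : S.card ≤ (row m0).card := Finset.card_filter_le _ _
  have key := zeroEst (K := K) p l h0 h1 (ι := {m // m ∈ S}) (fun k => a k.1) (fun k => b k.1) b0
    (fun k => hb k.1) A (fun k => hp k.1)
    (fun k k' hkk => H2 m0 k.1 (Finset.mem_filter.1 k.2).1 k'.1 (Finset.mem_filter.1 k'.2).1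
      (fun h => hkk (Subtype.ext h)))
    (fun k => f k.1) (fun k => (Finset.mem_filter.1 k.2).2) (fun k => hf k.1) ⟨m0, hmS⟩
  apply key
  rw [Fintype.card_coe]
  have hsplit : ∑ k : {m // m ∈ S}, f k.1 *
      (X ^ (a k.1) * (X - C l) ^ (b k.1) * (X - 1) ^ (b0 - b k.1)) =
      - ∑ m ∈ Sᶜ, f m * (X ^ (a m) * (X - C l) ^ (b m) * (X - 1) ^ (b0 - b m)) := by
    rw [Finset.sum_coe_sort S (fun m => f m *
      (X ^ (a m) * (X - C l) ^ (b m) * (X - 1) ^ (b0 - b m)))]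
    rw [← Finset.sum_add_sum_compl S] at hsum
    exact eq_neg_of_add_eq_zero_left hsum
  rw [hsplit, dvd_neg]
  refine Finset.dvd_sum fun m hm => ?_
  by_cases hfm : f m = 0
  · rw [hfm, zero_mul]
    exact dvd_zero _
  · have hmr : m ∉ row m0 := fun h =>
      (Finset.mem_compl.1 hm) (Finset.mem_filter.2 ⟨h, hfm⟩)
    have hle : b m0 ≤ b m := hmin m (Finset.mem_filter.2 ⟨Finset.mem_univ _, hfm⟩)
    have h2 := H1 m0 m hle hmr
    have h3 : b m0 + S.card * (A + S.card) ≤ b m :=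
      le_trans (Nat.add_le_add_left (Nat.mul_le_mul hcard (Nat.add_le_add_left hcard A)) _) h2
    exact Dvd.dvd.mul_left (Dvd.dvd.mul_right (Dvd.dvd.mul_left (pow_dvd_pow _ h3) _) _) _

end MW
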