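import Pool.Agent.Lib.MP_a542cf_al.Defs

/-!
# Small divisors of `p - 1` and `p + 1` by Rankin's trick

`Dt p t` counts the divisors `≤ t` of `p - 1` and of `p + 1`. For every `σ < 1` it is at most
`2 t^σ exp (C (log (p+1))^(1-σ))`.
-/

namespace MW

open Finset

/-- number of divisors `≤ t` of `p-1` plus number of divisors `≤ t` of `p+1` -/
def Dt (p t : ℕ) : ℕ :=
  ((p - 1).divisors.filter (fun s => s ≤ t)).card + ((p + 1).divisors.filter (fun s => s ≤ t)).card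

theorem dt_le_dv (p t : ℕ) : Dt p t ≤ Dv p :=
  Nat.add_le_add (card_filter_le _ _) (card_filter_le _ _)

theorem rk_sum_prod (σ : ℝ) (b : ℕ) (hb : b ≠ 0) :
    ∑ d ∈ b.divisors, (d : ℝ) ^ (-σ) =
      ∏ p ∈ b.primeFactors, ∑ i ∈ Finset.range (b.factorization p + 1), ((p : ℝ) ^ (-σ)) ^ i := by
  let g : ArithmeticFunction ℝ := ⟨fun n => if n = 0 then 0 else (n : ℝ) ^ (-σ), by simp⟩
  have hgv : ∀ n : ℕ, n ≠ 0 → g n = (n : ℝ) ^ (-σ) := by
    intro n hn
    show (if n = 0 then (0 : ℝ) else (n : ℝ) ^ (-σ)) = _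
    rw [if_neg hn]
  have hg : g.IsMultiplicative := by
    rw [ArithmeticFunction.IsMultiplicative.iff_ne_zero]
    refine ⟨?_, fun {m n} hm hn _ => ?_⟩
    · rw [hgv 1 one_ne_zero]
      simp
    · rw [hgv _ (mul_ne_zero hm hn), hgv _ hm, hgv _ hn, Nat.cast_mul,
        Real.mul_rpow (Nat.cast_nonneg _) (Nat.cast_nonneg _)]
  have hz := (ArithmeticFunction.isMultiplicative_zeta.natCast (R := ℝ)).mul hg
  have h := ArithmeticFunction.IsMultiplicative.multiplicative_factorization _ hz hb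
  rw [ArithmeticFunction.coe_zeta_mul_apply] at h
  have h1 : ∑ d ∈ b.divisors, (d : ℝ) ^ (-σ) = ∑ d ∈ b.divisors, g d := by
    refine Finset.sum_congr rfl fun d hd => ?_
    rw [hgv d (Nat.pos_of_mem_divisors hd).ne']
  rw [h1, h, Finsupp.prod, Nat.support_factorization]
  refine Finset.prod_congr rfl fun p hp => ?_
  have hpp := Nat.prime_of_mem_primeFactors hp
  rw [ArithmeticFunction.coe_zeta_mul_apply, Nat.sum_divisors_prime_pow hpp]
  refine Finset.sum_congr rfl fun i _ => ?_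
  rw [hgv _ (pow_ne_zero _ hpp.ne_zero), Nat.cast_pow, ← Real.rpow_natCast, ← Real.rpow_mul
    (Nat.cast_nonneg _), ← Real.rpow_natCast, ← Real.rpow_mul (Nat.cast_nonneg _), mul_comm]

theorem rk_sum_rpow {σ : ℝ} (h0 : 0 < σ) (h1 : σ ≤ 1) (w : ℕ) :
    ∑ n ∈ Icc 1 w, (n : ℝ) ^ (σ - 1) ≤ (w : ℝ) ^ σ / σ := by
  induction w with
  | zero => simp [Real.zero_rpow h0.ne']
  | succ w ih =>
    rw [Finset.sum_Icc_succ_top (by omega)]
    have hw : (0 : ℝ) < ((w + 1 : ℕ) : ℝ) := by exact_mod_cast Nat.succ_pos w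
    have h2 : ((w : ℕ) : ℝ) ^ σ ≤ ((w + 1 : ℕ) : ℝ) ^ σ * (1 - σ / ((w + 1 : ℕ) : ℝ)) := by
      have h3 : ((w : ℕ) : ℝ) = ((w + 1 : ℕ) : ℝ) * (1 + -(1 / ((w + 1 : ℕ) : ℝ))) := by
        field_simp
        push_cast
        ring
      have h4 : (1 + -(1 / ((w + 1 : ℕ) : ℝ))) ^ σ ≤ 1 + σ * -(1 / ((w + 1 : ℕ) : ℝ)) := by
        refine rpow_one_add_le_one_add_mul_self ?_ h0.le h1
        rw [neg_le_neg_iff, div_le_one hw]
        exact_mod_cast Nat.succ_pos w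
      have h5 : (0 : ℝ) ≤ 1 + -(1 / ((w + 1 : ℕ) : ℝ)) := by
        have : 1 / ((w + 1 : ℕ) : ℝ) ≤ 1 := by
          rw [div_le_one hw]
          exact_mod_cast Nat.succ_pos w
        linarith
      calc ((w : ℕ) : ℝ) ^ σ = (((w + 1 : ℕ) : ℝ) * (1 + -(1 / ((w + 1 : ℕ) : ℝ)))) ^ σ := by
            rw [← h3]
        _ = ((w + 1 : ℕ) : ℝ) ^ σ * (1 + -(1 / ((w + 1 : ℕ) : ℝ))) ^ σ :=
            Real.mul_rpow hw.le h5
        _ ≤ ((w + 1 : ℕ) : ℝ) ^ σ * (1 + σ * -(1 / ((w + 1 : ℕ) : ℝ))) :=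
            mul_le_mul_of_nonneg_left h4 (Real.rpow_nonneg hw.le _)
        _ = _ := by ring
    have h6 : ((w + 1 : ℕ) : ℝ) ^ (σ - 1) = ((w + 1 : ℕ) : ℝ) ^ σ / ((w + 1 : ℕ) : ℝ) := by
      rw [Real.rpow_sub hw, Real.rpow_one]
    rw [h6]
    rw [le_div_iff₀ h0] at ih ⊢
    have h7 : ((w + 1 : ℕ) : ℝ) ^ σ * (1 - σ / ((w + 1 : ℕ) : ℝ)) =
        ((w + 1 : ℕ) : ℝ) ^ σ - ((w + 1 : ℕ) : ℝ) ^ σ / ((w + 1 : ℕ) : ℝ) * σ := by
      field_simp
    rw [h7] at h2
    linarith [ih, h2, add_mul (∑ n ∈ Icc 1 w, (n : ℝ) ^ (σ - 1))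
      (((w + 1 : ℕ) : ℝ) ^ σ / ((w + 1 : ℕ) : ℝ)) σ]

/-- the sum of `q^(-σ)` over a finite set of positive integers -/
theorem rk_set_sum {σ : ℝ} (h0 : 0 < σ) (h1 : σ < 1) (S : Finset ℕ) (hS : ∀ q ∈ S, 1 ≤ q) :
    ∑ q ∈ S, (q : ℝ) ^ (-σ) ≤ (1 / (1 - σ) + 1) * (S.card : ℝ) ^ (1 - σ) := by
  have h1' : 0 < 1 - σ := by linarith
  rw [← Finset.sum_filter_add_sum_filter_not S (fun q => q ≤ S.card), add_mul]
  refine add_le_add ?_ ?_
  · have hsub : S.filter (fun q => q ≤ S.card) ⊆ Icc 1 S.card := by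
      intro q hq
      rw [mem_filter] at hq
      exact mem_Icc.2 ⟨hS q hq.1, hq.2⟩
    refine (Finset.sum_le_sum_of_subset_of_nonneg hsub fun q _ _ =>
      Real.rpow_nonneg (Nat.cast_nonneg q) _).trans ?_
    have h := rk_sum_rpow h1' (by linarith) S.card
    have e : ∀ n : ℕ, (n : ℝ) ^ (-σ) = (n : ℝ) ^ (1 - σ - 1) := by
      intro n; congr 1; ring
    simp only [e]
    refine h.trans (le_of_eq ?_)
    ring
  · rcases Nat.eq_zero_or_pos S.card with hc | hc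
    · have : S = ∅ := Finset.card_eq_zero.1 hc
      subst this
      simp [Real.zero_rpow h1'.ne']
    have hc' : (0 : ℝ) < S.card := by exact_mod_cast hc
    calc ∑ q ∈ S.filter (fun q => ¬ q ≤ S.card), (q : ℝ) ^ (-σ)
        ≤ ∑ q ∈ S.filter (fun q => ¬ q ≤ S.card), (S.card : ℝ) ^ (-σ) := by
          refine Finset.sum_le_sum fun q hq => ?_
          rw [mem_filter, not_le] at hq
          exact Real.rpow_le_rpow_of_nonpos hc' (by exact_mod_cast hq.2.le) (by linarith)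
      _ = ((S.filter (fun q => ¬ q ≤ S.card)).card : ℝ) * (S.card : ℝ) ^ (-σ) := by
          rw [sum_const, nsmul_eq_mul]
      _ ≤ (S.card : ℝ) * (S.card : ℝ) ^ (-σ) := by
          refine mul_le_mul_of_nonneg_right ?_ (Real.rpow_nonneg hc'.le _)
          exact_mod_cast card_filter_le _ _
      _ = 1 * (S.card : ℝ) ^ (1 - σ) := by
          rw [one_mul, sub_eq_add_neg, Real.rpow_add hc', Real.rpow_one]

/-- the number of prime factors -/
theorem rk_omega (n : ℕ) (hn : n ≠ 0) : (n.primeFactors.card : ℝ) ≤ Real.log n / Real.log 2 := by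
  have h2 : (0 : ℝ) < Real.log 2 := Real.log_pos (by norm_num)
  rw [le_div_iff₀ h2]
  have h1 : 2 ^ n.primeFactors.card ≤ n := by
    calc 2 ^ n.primeFactors.card = ∏ q ∈ n.primeFactors, 2 := by rw [prod_const]
      _ ≤ ∏ q ∈ n.primeFactors, q :=
          Finset.prod_le_prod' fun q hq => (Nat.prime_of_mem_primeFactors hq).two_le
      _ ≤ n := Nat.le_of_dvd (Nat.pos_of_ne_zero hn) (Nat.prod_primeFactors_dvd n)
  have h3 : ((2 : ℝ)) ^ n.primeFactors.card ≤ n := by exact_mod_cast h1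
  have h4 := Real.log_le_log (by positivity) h3
  rwa [Real.log_pow] at h4

/-- Rankin: at most `t^σ exp(C (log n)^(1-σ))` divisors `≤ t` -/
theorem rankinDiv (σ : ℝ) (h0 : 0 < σ) (h1 : σ < 1) : ∃ C : ℝ, 0 < C ∧ ∀ n t : ℕ, 1 ≤ n → 1 ≤ t →
    ((n.divisors.filter (fun s => s ≤ t)).card : ℝ) ≤
      (t : ℝ) ^ σ * Real.exp (C * (Real.log n) ^ (1 - σ)) := by
  have h2σ : (2 : ℝ) ^ (-σ) < 1 := Real.rpow_lt_one_of_one_lt_of_neg (by norm_num) (by linarith)
  have hlog2 : (0 : ℝ) < Real.log 2 := Real.log_pos (by norm_num)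
  set c : ℝ := 1 / (1 - (2 : ℝ) ^ (-σ)) with hc
  have hcpos : 0 < c := by
    rw [hc]; exact one_div_pos.2 (by linarith)
  have hd : 0 < 1 / (1 - σ) + 1 := by
    have : 0 < 1 / (1 - σ) := one_div_pos.2 (by linarith)
    linarith
  refine ⟨c * (1 / (1 - σ) + 1) * (1 / Real.log 2) ^ (1 - σ), by positivity, fun n t hn ht => ?_⟩
  have hn0 : n ≠ 0 := by omega
  have ht0 : (0 : ℝ) < t := by exact_mod_cast ht
  have hlogn : 0 ≤ Real.log n := Real.log_nonneg (by exact_mod_cast hn)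
  -- Rankin
  have hA : ((n.divisors.filter (fun s => s ≤ t)).card : ℝ) ≤
      (t : ℝ) ^ σ * ∑ d ∈ n.divisors, (d : ℝ) ^ (-σ) := by
    rw [Finset.card_eq_sum_ones, Nat.cast_sum, Finset.mul_sum]
    refine (Finset.sum_le_sum fun d hd => ?_).trans
      (Finset.sum_le_sum_of_subset_of_nonneg (filter_subset _ _) fun d _ _ =>
        mul_nonneg (Real.rpow_nonneg ht0.le _) (Real.rpow_nonneg (Nat.cast_nonneg d) _))
    rw [mem_filter] at hd
    have hd0 : (0 : ℝ) < d := by exact_mod_cast Nat.pos_of_mem_divisors hd.1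
    have hdt : (d : ℝ) ≤ t := by exact_mod_cast hd.2
    rw [Nat.cast_one, Real.rpow_neg hd0.le, ← div_eq_mul_inv, one_le_div (Real.rpow_pos_of_pos hd0 _)]
    exact Real.rpow_le_rpow hd0.le hdt h0.le
  refine hA.trans (mul_le_mul_of_nonneg_left ?_ (Real.rpow_nonneg ht0.le _))
  rw [rk_sum_prod σ n hn0]
  have hB : ∏ p ∈ n.primeFactors, ∑ i ∈ Finset.range (n.factorization p + 1),
      ((p : ℝ) ^ (-σ)) ^ i ≤ ∏ p ∈ n.primeFactors, Real.exp (c * (p : ℝ) ^ (-σ)) := by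
    refine Finset.prod_le_prod (fun p _ => Finset.sum_nonneg fun i _ => by positivity)
      fun p hp => ?_
    have hp2 : (2 : ℝ) ≤ p := by exact_mod_cast (Nat.prime_of_mem_primeFactors hp).two_le
    set x : ℝ := (p : ℝ) ^ (-σ) with hx
    have hx0 : 0 < x := Real.rpow_pos_of_pos (by linarith) _
    have hx1 : x ≤ (2 : ℝ) ^ (-σ) := Real.rpow_le_rpow_of_nonpos (by norm_num) hp2 (by linarith)
    have hxlt : x < 1 := lt_of_le_of_lt hx1 h2σ
    have hg : ∑ i ∈ Finset.range (n.factorization p + 1), x ^ i ≤ 1 / (1 - x) := by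
      rw [le_div_iff₀ (by linarith), mul_comm, mul_neg_geom_sum]
      have : 0 < x ^ (n.factorization p + 1) := by positivity
      linarith
    refine hg.trans ?_
    have h3 : 1 / (1 - x) ≤ 1 + c * x := by
      rw [div_le_iff₀ (by linarith)]
      have : c * (1 - (2 : ℝ) ^ (-σ)) = 1 := by
        rw [hc]; field_simp
        exact div_self (by linarith)
      nlinarith [mul_nonneg hcpos.le hx0.le, mul_le_mul_of_nonneg_left hx1 hcpos.le]
    exact h3.trans (by linarith [Real.add_one_le_exp (c * x)])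
  refine hB.trans ?_
  rw [← Real.exp_sum, ← Finset.mul_sum, Real.exp_le_exp]
  have hD := rk_set_sum h0 h1 n.primeFactors (fun q hq => (Nat.prime_of_mem_primeFactors hq).one_le)
  have hE : ((n.primeFactors.card : ℝ)) ^ (1 - σ) ≤
      (1 / Real.log 2) ^ (1 - σ) * (Real.log n) ^ (1 - σ) := by
    rw [← Real.mul_rpow (by positivity) hlogn]
    refine Real.rpow_le_rpow (Nat.cast_nonneg _) ?_ (by linarith)
    refine (rk_omega n hn0).trans (le_of_eq ?_)
    ring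
  calc c * ∑ q ∈ n.primeFactors, (q : ℝ) ^ (-σ)
      ≤ c * ((1 / (1 - σ) + 1) * (n.primeFactors.card : ℝ) ^ (1 - σ)) :=
        mul_le_mul_of_nonneg_left hD hcpos.le
    _ ≤ c * ((1 / (1 - σ) + 1) * ((1 / Real.log 2) ^ (1 - σ) * (Real.log n) ^ (1 - σ))) := by
        gcongr
    _ = _ := by ring

/-- the threshold: for `t ≥ exp(C (log X)^θ)`, `θ > 2/3`, the divisors `≤ t` are few -/
theorem threshold (θ : ℝ) (h0 : 2 / 3 < θ) (h1 : θ < 1) : ∃ C : ℝ, 0 < C ∧ ∀ (X : ℝ) (p t : ℕ),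
    2 ≤ p → (p : ℝ) ≤ X → Real.exp (C * (Real.log X) ^ θ) ≤ t → 2 ^ 21 * (Dt p t) ^ 3 ≤ t := by
  set σ : ℝ := 1 - θ with hσ
  have hσ0 : 0 < σ := by rw [hσ]; linarith
  have hσ1 : σ < 1 / 3 := by rw [hσ]; linarith
  obtain ⟨C, hC, hR⟩ := rankinDiv σ hσ0 (by linarith)
  have hlog2 : (0 : ℝ) < Real.log 2 := Real.log_pos (by norm_num)
  have hs : 0 < 1 - 3 * σ := by linarith
  refine ⟨(24 * Real.log 2 / (Real.log 2) ^ θ + 3 * (C * 2 ^ θ)) / (1 - 3 * σ), by positivity,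
    fun X p t hp hpX ht => ?_⟩
  set L : ℝ := Real.log X with hL
  have hX2 : (2 : ℝ) ≤ X := le_trans (by exact_mod_cast hp) hpX
  have hL2 : Real.log 2 ≤ L := Real.log_le_log (by norm_num) hX2
  have hL0 : 0 < L := lt_of_lt_of_le hlog2 hL2
  have hLθ : 0 < L ^ θ := Real.rpow_pos_of_pos hL0 _
  have ht0 : (0 : ℝ) < t := lt_of_lt_of_le (Real.exp_pos _) ht
  have ht1 : 1 ≤ t := by exact_mod_cast ht0
  have hone : ∀ n : ℕ, 1 ≤ n → (n : ℝ) ≤ X ^ 2 →
      ((n.divisors.filter (fun s => s ≤ t)).card : ℝ) ≤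
        (t : ℝ) ^ σ * Real.exp (C * 2 ^ θ * L ^ θ) := by
    intro n hn hnX
    refine (hR n t hn ht1).trans ?_
    refine mul_le_mul_of_nonneg_left ?_ (Real.rpow_nonneg ht0.le _)
    rw [Real.exp_le_exp]
    have hn0 : (0 : ℝ) < n := by exact_mod_cast hn
    have h3 : Real.log n ≤ 2 * L := by
      have := Real.log_le_log hn0 hnX
      rwa [Real.log_pow, Nat.cast_ofNat] at this
    have h4 : (Real.log n) ^ (1 - σ) ≤ (2 : ℝ) ^ θ * L ^ θ := by
      rw [← Real.mul_rpow (by norm_num) hL0.le]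
      have : 1 - σ = θ := by rw [hσ]; ring
      rw [this]
      exact Real.rpow_le_rpow (Real.log_nonneg (by exact_mod_cast hn)) h3 (by linarith)
    calc C * (Real.log n) ^ (1 - σ) ≤ C * ((2 : ℝ) ^ θ * L ^ θ) :=
          mul_le_mul_of_nonneg_left h4 hC.le
      _ = _ := by ring
  have hp1 : ((p - 1 : ℕ) : ℝ) ≤ X ^ 2 := by
    have h5 : ((p - 1 : ℕ) : ℝ) ≤ p := by exact_mod_cast Nat.sub_le p 1
    nlinarith
  have hp2 : ((p + 1 : ℕ) : ℝ) ≤ X ^ 2 := by
    push_cast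
    nlinarith
  have hDt : (Dt p t : ℝ) ≤ 2 * ((t : ℝ) ^ σ * Real.exp (C * 2 ^ θ * L ^ θ)) := by
    have h6 := hone (p - 1) (by omega) hp1
    have h7 := hone (p + 1) (by omega) hp2
    unfold Dt
    push_cast
    push_cast at h6 h7
    linarith
  have hfin : (2 : ℝ) ^ 21 * (Dt p t : ℝ) ^ 3 ≤ t := by
    calc (2 : ℝ) ^ 21 * (Dt p t : ℝ) ^ 3
        ≤ 2 ^ 21 * (2 * ((t : ℝ) ^ σ * Real.exp (C * 2 ^ θ * L ^ θ))) ^ 3 := by gcongr
      _ = 2 ^ 24 * ((t : ℝ) ^ (3 * σ) * Real.exp (3 * (C * 2 ^ θ) * L ^ θ)) := by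
          rw [mul_pow, mul_pow, ← Real.rpow_natCast ((t : ℝ) ^ σ), ← Real.rpow_mul ht0.le,
            ← Real.exp_nat_mul]
          push_cast
          ring_nf
      _ ≤ (t : ℝ) ^ (1 - 3 * σ) * (t : ℝ) ^ (3 * σ) := by
          have h8 : (2 : ℝ) ^ 24 * Real.exp (3 * (C * 2 ^ θ) * L ^ θ) ≤ (t : ℝ) ^ (1 - 3 * σ) := by
            have e24 : (2 : ℝ) ^ 24 = Real.exp (24 * Real.log 2) := by
              rw [← Real.exp_log (show (0 : ℝ) < 2 ^ 24 by positivity), Real.log_pow]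
              norm_num
            rw [e24, ← Real.exp_add]
            calc Real.exp (24 * Real.log 2 + 3 * (C * 2 ^ θ) * L ^ θ)
                ≤ Real.exp (((24 * Real.log 2 / (Real.log 2) ^ θ + 3 * (C * 2 ^ θ)) /
                  (1 - 3 * σ)) * L ^ θ * (1 - 3 * σ)) := by
                  rw [Real.exp_le_exp]
                  have h9 : ((24 * Real.log 2 / (Real.log 2) ^ θ + 3 * (C * 2 ^ θ)) /
                      (1 - 3 * σ)) * L ^ θ * (1 - 3 * σ) =
                      24 * Real.log 2 * (L ^ θ / (Real.log 2) ^ θ) + 3 * (C * 2 ^ θ) * L ^ θ := by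
                    field_simp
                  rw [h9]
                  have h10 : 1 ≤ L ^ θ / (Real.log 2) ^ θ := by
                    rw [one_le_div (Real.rpow_pos_of_pos hlog2 _)]
                    exact Real.rpow_le_rpow hlog2.le hL2 (by linarith)
                  nlinarith
              _ = (Real.exp (((24 * Real.log 2 / (Real.log 2) ^ θ + 3 * (C * 2 ^ θ)) /
                  (1 - 3 * σ)) * L ^ θ)) ^ (1 - 3 * σ) := by
                  rw [← Real.exp_mul]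
              _ ≤ (t : ℝ) ^ (1 - 3 * σ) :=
                  Real.rpow_le_rpow (Real.exp_pos _).le ht hs.le
          calc (2 : ℝ) ^ 24 * ((t : ℝ) ^ (3 * σ) * Real.exp (3 * (C * 2 ^ θ) * L ^ θ))
              = (2 ^ 24 * Real.exp (3 * (C * 2 ^ θ) * L ^ θ)) * (t : ℝ) ^ (3 * σ) := by ring
            _ ≤ _ := mul_le_mul_of_nonneg_right h8 (Real.rpow_nonneg ht0.le _)
      _ = t := by
          rw [← Real.rpow_add ht0]
          have : 1 - 3 * σ + 3 * σ = 1 := by ring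
          rw [this, Real.rpow_one]
  exact_mod_cast hfin

end MW
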