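import Pool.Agent.Lib.MP_a542cf_al.WeakCnt

/-! MX-WeakIdx3: the index set of the weak Stepanov bound, with rows. -/

namespace MW

/-- number of indices in a row -/
private theorem weakidx3_card {N J1 : ℕ} (ii jj : Fin N → ℕ)
    (hinj : Function.Injective (fun m => (ii m, jj m))) (hjj : ∀ m, jj m ≤ J1) {x0 y0 : ℤ}
    (hcop : Int.gcd x0 y0 = 1) (hy0 : y0 ≠ 0) (m : Fin N) :
    (Finset.univ.filter (fun m' => ((ii m' : ℤ) - ii m) * y0 = ((jj m' : ℤ) - jj m) * x0)).card *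
      y0.natAbs ≤ J1 + y0.natAbs := by
  have hq : 0 < y0.natAbs := Int.natAbs_pos.2 hy0
  have hmod : ∀ m', ((ii m' : ℤ) - ii m) * y0 = ((jj m' : ℤ) - jj m) * x0 →
      jj m' % y0.natAbs = jj m % y0.natAbs := by
    intro m' h
    have h1 : y0 ∣ ((jj m' : ℤ) - jj m) * x0 := ⟨(ii m' : ℤ) - ii m, by rw [← h]; ring⟩
    have h2 : IsCoprime y0 x0 := by
      rw [Int.isCoprime_iff_gcd_eq_one, Int.gcd_comm]; exact hcop
    have h3 : y0 ∣ (jj m' : ℤ) - jj m := h2.dvd_of_dvd_mul_right h1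
    have h4 : (y0.natAbs : ℤ) ∣ (jj m' : ℤ) - jj m := Int.natAbs_dvd.2 h3
    have h5 : (jj m : ℤ) ≡ jj m' [ZMOD y0.natAbs] := (Int.modEq_iff_dvd.2 h4)
    exact (Int.natCast_modEq_iff.1 h5).symm
  have hcard := Finset.card_le_card_of_injOn (s := Finset.univ.filter
    (fun m' => ((ii m' : ℤ) - ii m) * y0 = ((jj m' : ℤ) - jj m) * x0))
    (t := Finset.range (J1 / y0.natAbs + 1)) (fun m' => jj m' / y0.natAbs)
    (fun m' _ => Finset.mem_coe.2 (Finset.mem_range.2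
      (Nat.lt_succ_of_le (Nat.div_le_div_right (hjj m'))))) (by
      intro x hx y hy hxy
      have e1 := (Finset.mem_filter.1 (Finset.mem_coe.1 hx)).2
      have e2 := (Finset.mem_filter.1 (Finset.mem_coe.1 hy)).2
      have e3 : jj x = jj y := by
        rw [← Nat.div_add_mod (jj x) y0.natAbs, ← Nat.div_add_mod (jj y) y0.natAbs,
          hmod x e1, hmod y e2]
        simp only at hxy
        rw [hxy]
      rw [e3, ← e2] at e1
      have e4 := mul_right_cancel₀ hy0 e1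
      apply hinj
      have e5 : ii x = ii y := by omega
      simp only [e3, e5])
  rw [Finset.card_range] at hcard
  calc _ ≤ (J1 / y0.natAbs + 1) * y0.natAbs := Nat.mul_le_mul_right _ hcard
    _ = J1 / y0.natAbs * y0.natAbs + y0.natAbs := by ring
    _ ≤ J1 + y0.natAbs := Nat.add_le_add_right (Nat.div_mul_le_self _ _) _

/-- outside a row the difference of the exponents is large -/
private theorem weakidx3_out {t s j n : ℕ} (hj : 1 ≤ j) (ht : 40 * j ^ 3 ≤ t)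
    {x0 y0 x y β q : ℤ} (h0 : |(t : ℤ) * x0 + s * y0| ≤ 4 * (j : ℤ) ^ 2)
    (h : 2 * β = t * x + s * y) (hβ : 0 ≤ β) (hy : |y| ≤ 2 * j - 1)
    (hq : |y0| = q) (hq0 : 0 < q) (hn : n * q ≤ 2 * (2 * (j : ℤ) - 1)) (hn2 : (n : ℤ) ≤ 2 * j)
    (hdet : x * y0 ≠ y * x0) : (n : ℤ) * (2 * (j : ℤ) ^ 2 + n) ≤ β := by
  have hj' : (1 : ℤ) ≤ j := by exact_mod_cast hj
  have ht' : 40 * (j : ℤ) ^ 3 ≤ t := by exact_mod_cast ht
  have hkey : (t : ℤ) * (x0 * y - x * y0) = (t * x0 + s * y0) * y - 2 * β * y0 := by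
    rw [h]; ring
  have hne : x0 * y - x * y0 ≠ 0 := by
    intro h1; apply hdet; linarith
  have h5 : (1 : ℤ) ≤ |x0 * y - x * y0| := Int.one_le_abs hne
  have h6 : (t : ℤ) ≤ |(t : ℤ) * (x0 * y - x * y0)| := by
    rw [abs_mul, abs_of_nonneg (Int.natCast_nonneg t)]
    have := mul_le_mul_of_nonneg_left h5 (Int.natCast_nonneg t)
    linarith
  have h7 : |(t : ℤ) * (x0 * y - x * y0)| ≤ 4 * (j : ℤ) ^ 2 * (2 * j - 1) + 2 * β * q := by
    rw [hkey]
    refine (abs_sub _ _).trans ?_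
    rw [abs_mul, abs_mul, hq, abs_of_nonneg (show (0 : ℤ) ≤ 2 * β by linarith)]
    have := mul_le_mul h0 hy (abs_nonneg _) (by positivity)
    linarith
  have hn0 : (0 : ℤ) ≤ n := Int.natCast_nonneg n
  have h8 : (n * q) * (2 * (j : ℤ) ^ 2 + n) ≤ 2 * (2 * (j : ℤ) - 1) * (2 * (j : ℤ) ^ 2 + 2 * j) :=
    mul_le_mul hn (by linarith) (by positivity) (by linarith)
  have h9 : 2 * (2 * (2 * (j : ℤ) - 1) * (2 * (j : ℤ) ^ 2 + 2 * j)) +
      4 * (j : ℤ) ^ 2 * (2 * j - 1) ≤ 40 * (j : ℤ) ^ 3 := by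
    have h10 : (j : ℤ) ^ 2 ≤ (j : ℤ) ^ 3 := pow_le_pow_right₀ hj' (by norm_num)
    have h11 : 0 ≤ (j : ℤ) ^ 3 := by positivity
    have h12 : 2 * (2 * (2 * (j : ℤ) - 1) * (2 * (j : ℤ) ^ 2 + 2 * j)) +
      4 * (j : ℤ) ^ 2 * (2 * j - 1) = 24 * (j : ℤ) ^ 3 + 4 * (j : ℤ) ^ 2 - 8 * j := by ring
    rw [h12]; linarith
  have h13 : q * ((n : ℤ) * (2 * (j : ℤ) ^ 2 + n)) ≤ q * β := by
    have h14 : q * ((n : ℤ) * (2 * (j : ℤ) ^ 2 + n)) = (n * q) * (2 * (j : ℤ) ^ 2 + n) := by ring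
    have h15 : 2 * β * q = 2 * (q * β) := by ring
    rw [h14]
    linarith
  exact le_of_mul_le_mul_left h13 hq0

/-- inside a row the exponents `a` are separated -/
private theorem weakidx3_in {t s j : ℕ} (hs : 4 * j ^ 2 ≤ s)
    {x0 y0 x y α : ℤ} (h0 : |(t : ℤ) * x0 + s * y0| ≤ 4 * (j : ℤ) ^ 2)
    (hcop : Int.gcd x0 y0 = 1) (hy0 : y0 ≠ 0)
    (h : 2 * α = t * x - s * y) (hne : x ≠ 0 ∨ y ≠ 0) (hpar : x * y0 = y * x0) :
    2 * (j : ℤ) ^ 2 ≤ |α| := by
  have hs' : 4 * (j : ℤ) ^ 2 ≤ s := by exact_mod_cast hs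
  have h2 : IsCoprime y0 x0 := by
    rw [Int.isCoprime_iff_gcd_eq_one, Int.gcd_comm]; exact hcop
  obtain ⟨k, hk⟩ : y0 ∣ y := h2.dvd_of_dvd_mul_right (show y0 ∣ y * x0 from ⟨x, by rw [← hpar]; ring⟩)
  have hx : x = x0 * k := by
    have h3 : x * y0 = (x0 * k) * y0 := by rw [hpar, hk]; ring
    exact mul_right_cancel₀ hy0 h3
  have hk0 : k ≠ 0 := by
    rintro rfl
    rcases hne with h4 | h4
    · exact h4 (by rw [hx]; ring)
    · exact h4 (by rw [hk]; ring)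
  have h5 : 2 * α = k * (((t : ℤ) * x0 + s * y0) - 2 * (s * y0)) := by
    rw [h, hx, hk]; ring
  have h6 : 2 * (s : ℤ) - 4 * (j : ℤ) ^ 2 ≤ |((t : ℤ) * x0 + s * y0) - 2 * (s * y0)| := by
    have h7 : |2 * ((s : ℤ) * y0)| - |(t : ℤ) * x0 + s * y0| ≤
        |2 * ((s : ℤ) * y0) - ((t : ℤ) * x0 + s * y0)| := abs_sub_abs_le_abs_sub _ _
    rw [abs_sub_comm (2 * ((s : ℤ) * y0))] at h7
    have h8 : |2 * ((s : ℤ) * y0)| = 2 * (s * |y0|) := by
      rw [abs_mul, abs_mul, abs_of_nonneg (Int.natCast_nonneg s)]; norm_num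
    have h9 : (s : ℤ) * 1 ≤ s * |y0| :=
      mul_le_mul_of_nonneg_left (Int.one_le_abs hy0) (Int.natCast_nonneg s)
    linarith
  have h10 : |2 * α| = 2 * |α| := by rw [abs_mul]; norm_num
  have h11 : |2 * α| = |k| * |((t : ℤ) * x0 + s * y0) - 2 * (s * y0)| := by rw [h5, abs_mul]
  have h12 : 1 * |((t : ℤ) * x0 + s * y0) - 2 * (s * y0)| ≤
      |k| * |((t : ℤ) * x0 + s * y0) - 2 * (s * y0)| :=
    mul_le_mul_of_nonneg_right (Int.one_le_abs hk0) (abs_nonneg _)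
  linarith

theorem weakIdx3 (p t s j : ℕ) (hj : 1 ≤ j) (hst : s ≤ t) (hs : 4 * t < s * j)
    (ht : 40 * j ^ 3 ≤ t) (hp : 2 * t * j + 2 * j ^ 2 + 1 ≤ p) :
    ∃ (ii jj a b : Fin (2 * j ^ 2) → ℕ) (a0 a1 b0 : ℕ)
      (row : Fin (2 * j ^ 2) → Finset (Fin (2 * j ^ 2))),
      (∀ m, 2 * b m = t * ii m + s * jj m) ∧
      (∀ m, 2 * a m + s * jj m = 2 * a0 + t * ii m) ∧
      (∀ m, a m ≤ a1) ∧ (∀ m, b m ≤ b0) ∧ a1 + b0 ≤ 4 * t * j ∧
      (∀ m, a m + 2 * j ^ 2 ≤ p) ∧ (∀ m, m ∈ row m) ∧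
      (∀ m m', b m ≤ b m' → m' ∉ row m →
        b m + (row m).card * (2 * j ^ 2 + (row m).card) ≤ b m') ∧
      (∀ m, ∀ m₁ ∈ row m, ∀ m₂ ∈ row m, m₁ ≠ m₂ →
        a m₁ + 2 * j ^ 2 ≤ a m₂ ∨ a m₂ + 2 * j ^ 2 ≤ a m₁) := by
  obtain ⟨ii, jj, hinj, hlt, hdvd⟩ := weakCnt t s j
  choose b hb using hdvd
  obtain ⟨J1, hJ1⟩ : ∃ J1, J1 + 1 = 2 * j := ⟨2 * j - 1, by omega⟩
  obtain ⟨a0, ha0, ha0'⟩ : ∃ a0, s * J1 ≤ 2 * a0 ∧ 2 * a0 ≤ s * J1 + 1 :=
    ⟨(s * J1 + 1) / 2, by omega, by omega⟩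
  have hii : ∀ m, ii m ≤ J1 := fun m => by have := (hlt m).1; omega
  have hjj : ∀ m, jj m ≤ J1 := fun m => by have := (hlt m).2; omega
  have hsj : ∀ m, s * jj m ≤ s * J1 := fun m => Nat.mul_le_mul_left s (hjj m)
  have hti : ∀ m, t * ii m ≤ t * J1 := fun m => Nat.mul_le_mul_left t (hii m)
  have hst1 : s * J1 ≤ t * J1 := Nat.mul_le_mul_right J1 hst
  have htj : t * J1 + t = 2 * (t * j) := by
    have : t * (J1 + 1) = t * (2 * j) := by rw [hJ1]
    linarith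
  have hjp : 1 ≤ j ^ 2 := Nat.one_le_pow _ _ hj
  have h23 : j ^ 2 ≤ j ^ 3 := Nat.pow_le_pow_right hj (by norm_num)
  obtain ⟨a, haa⟩ : ∃ a : Fin (2 * j ^ 2) → ℕ, ∀ m, 2 * a m + s * jj m = 2 * a0 + t * ii m := by
    refine ⟨fun m => a0 + b m - s * jj m, fun m => ?_⟩
    have h1 := hb m
    have h2 := hsj m
    simp only
    omega
  have h4tj : 4 * t * j = 4 * (t * j) := by ring
  have h2tj : 2 * t * j = 2 * (t * j) := by ring
  have ha1 : ∀ m, a m ≤ a0 + (t * J1) / 2 := by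
    intro m
    have h1 := haa m
    have h2 := hti m
    omega
  have hb1 : ∀ m, b m ≤ (t * J1 + s * J1) / 2 := by
    intro m
    have h1 := hb m
    have h2 := hti m
    have h3 := hsj m
    omega
  have hsum : a0 + (t * J1) / 2 + (t * J1 + s * J1) / 2 ≤ 4 * t * j := by
    rw [h4tj]; omega
  have hap : ∀ m, a m + 2 * j ^ 2 ≤ p := by
    intro m
    have h1 := ha1 m
    omega
  by_cases hcase : ∀ m m', m ≠ m' → b m ≤ b m' → b m + (2 * j ^ 2 + 1) ≤ b m'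
  · refine ⟨ii, jj, a, b, a0, a0 + (t * J1) / 2, (t * J1 + s * J1) / 2, fun m => {m},
      fun m => (hb m).symm, haa, ha1, hb1, hsum, hap, fun m => Finset.mem_singleton_self m, ?_, ?_⟩
    · intro m m' h hm
      rw [Finset.mem_singleton] at hm
      rw [Finset.card_singleton, one_mul]
      exact hcase m m' (Ne.symm hm) h
    · intro m m₁ h₁ m₂ h₂ hne
      rw [Finset.mem_singleton] at h₁ h₂
      exact absurd (h₁.trans h₂.symm) hne
  · push Not at hcase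
    obtain ⟨m1, m2, hm12, hb12, hb12'⟩ := hcase
    have hJ1' : (J1 : ℤ) = 2 * j - 1 := by
      have : (J1 : ℤ) + 1 = 2 * j := by exact_mod_cast hJ1
      linarith
    have hdist : ∀ m m', |((ii m' : ℤ)) - ii m| ≤ 2 * j - 1 ∧
        |((jj m' : ℤ)) - jj m| ≤ 2 * j - 1 := by
      intro m m'
      have h1 := hii m
      have h2 := hii m'
      have h3 := hjj m
      have h4 := hjj m'
      constructor <;> rw [abs_le] <;> constructor <;> omega
    have hβeq : ∀ m m', 2 * ((b m' : ℤ) - b m) =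
        t * ((ii m' : ℤ) - ii m) + s * ((jj m' : ℤ) - jj m) := by
      intro m m'
      have h1 : (t : ℤ) * ii m + s * jj m = 2 * b m := by exact_mod_cast hb m
      have h2 : (t : ℤ) * ii m' + s * jj m' = 2 * b m' := by exact_mod_cast hb m'
      linarith
    have hαeq : ∀ m m', 2 * ((a m' : ℤ) - a m) =
        t * ((ii m' : ℤ) - ii m) - s * ((jj m' : ℤ) - jj m) := by
      intro m m'
      have h1 : 2 * (a m : ℤ) + s * jj m = 2 * a0 + t * ii m := by exact_mod_cast haa m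
      have h2 : 2 * (a m' : ℤ) + s * jj m' = 2 * a0 + t * ii m' := by exact_mod_cast haa m'
      linarith
    have hne0 : ∀ m m', m ≠ m' → (ii m' : ℤ) - ii m ≠ 0 ∨ (jj m' : ℤ) - jj m ≠ 0 := by
      intro m m' hm
      by_contra hc
      push Not at hc
      apply hm
      apply hinj
      have h1 : ii m = ii m' := by have := hc.1; omega
      have h2 : jj m = jj m' := by have := hc.2; omega
      simp only [h1, h2]
    have hgpos : 0 < Int.gcd ((ii m2 : ℤ) - ii m1) ((jj m2 : ℤ) - jj m1) := by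
      rw [Nat.pos_iff_ne_zero]
      intro h
      rw [Int.gcd_eq_zero_iff] at h
      rcases hne0 m1 m2 hm12 with h1 | h1
      · exact h1 h.1
      · exact h1 h.2
    obtain ⟨x0, y0, hcop, hx1, hy1⟩ := Int.exists_gcd_one hgpos
    set g := Int.gcd ((ii m2 : ℤ) - ii m1) ((jj m2 : ℤ) - jj m1) with hg
    have hg1 : (1 : ℤ) ≤ g := by exact_mod_cast hgpos
    have hj' : (1 : ℤ) ≤ j := by exact_mod_cast hj
    have hle : ∀ z : ℤ, |z| ≤ |z * (g : ℤ)| := by
      intro z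
      rw [abs_mul, abs_of_nonneg (show (0 : ℤ) ≤ g by linarith)]
      have := mul_le_mul_of_nonneg_left hg1 (abs_nonneg z)
      linarith
    have hτ : |(t : ℤ) * x0 + s * y0| ≤ 4 * (j : ℤ) ^ 2 := by
      have h1 : ((t : ℤ) * x0 + s * y0) * g = 2 * ((b m2 : ℤ) - b m1) := by
        rw [hβeq m1 m2, hx1, hy1]; ring
      have h2 := hle ((t : ℤ) * x0 + s * y0)
      rw [h1] at h2
      have h3 : (b m2 : ℤ) < b m1 + (2 * (j : ℤ) ^ 2 + 1) := by exact_mod_cast hb12'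
      have h4 : (b m1 : ℤ) ≤ b m2 := by exact_mod_cast hb12
      rw [abs_of_nonneg (show (0 : ℤ) ≤ 2 * ((b m2 : ℤ) - b m1) by linarith)] at h2
      linarith [Int.add_one_le_iff.2 h3]
    have hyb : |y0| ≤ 2 * j - 1 := (hle y0).trans (by rw [← hy1]; exact (hdist m1 m2).2)
    have ht' : 40 * (j : ℤ) ^ 3 ≤ t := by exact_mod_cast ht
    have h23' : (j : ℤ) ^ 2 ≤ (j : ℤ) ^ 3 := by exact_mod_cast h23
    have hj2pos : (1 : ℤ) ≤ (j : ℤ) ^ 2 := by exact_mod_cast hjp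
    have hy0 : y0 ≠ 0 := by
      intro h
      rw [h] at hτ
      have hx0 : x0 ≠ 0 := by
        intro h2
        rw [h, h2] at hcop
        simp at hcop
      have h3 : (t : ℤ) * 1 ≤ t * |x0| :=
        mul_le_mul_of_nonneg_left (Int.one_le_abs hx0) (Int.natCast_nonneg t)
      have h4 : |(t : ℤ) * x0 + s * 0| = t * |x0| := by
        rw [mul_zero, add_zero, abs_mul, abs_of_nonneg (Int.natCast_nonneg t)]
      rw [h4] at hτ
      linarith
    have hs2 : 4 * j ^ 2 ≤ s := by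
      have h1 : 160 * j ^ 3 < s * j := by omega
      have h2 : 160 * j ^ 2 * j < s * j := by
        calc 160 * j ^ 2 * j = 160 * j ^ 3 := by ring
          _ < s * j := h1
      have h3 := lt_of_mul_lt_mul_right h2 (Nat.zero_le j)
      omega
    have hqabs : |y0| = (y0.natAbs : ℤ) := Int.abs_eq_natAbs y0
    have hq0 : 0 < y0.natAbs := Int.natAbs_pos.2 hy0
    have hqJ : y0.natAbs ≤ J1 := by
      have : (y0.natAbs : ℤ) ≤ J1 := by rw [← hqabs, hJ1']; exact hyb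
      exact_mod_cast this
    refine ⟨ii, jj, a, b, a0, a0 + (t * J1) / 2, (t * J1 + s * J1) / 2,
      fun m => Finset.univ.filter
        (fun m' => ((ii m' : ℤ) - ii m) * y0 = ((jj m' : ℤ) - jj m) * x0),
      fun m => (hb m).symm, haa, ha1, hb1, hsum, hap, ?_, ?_, ?_⟩
    · intro m
      rw [Finset.mem_filter]
      exact ⟨Finset.mem_univ _, by ring⟩
    · intro m m' h hm'
      have hcard := weakidx3_card ii jj hinj hjj hcop hy0 m
      set n := (Finset.univ.filter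
        (fun m' => ((ii m' : ℤ) - ii m) * y0 = ((jj m' : ℤ) - jj m) * x0)).card with hn
      have hdet : ((ii m' : ℤ) - ii m) * y0 ≠ ((jj m' : ℤ) - jj m) * x0 := by
        intro h1
        exact hm' (Finset.mem_filter.2 ⟨Finset.mem_univ _, h1⟩)
      have hn1 : (n : ℤ) * (y0.natAbs : ℤ) ≤ 2 * (2 * (j : ℤ) - 1) := by
        have h1 : ((n * y0.natAbs : ℕ) : ℤ) ≤ ((J1 + y0.natAbs : ℕ) : ℤ) := by exact_mod_cast hcard
        have h2 : (y0.natAbs : ℤ) ≤ J1 := by exact_mod_cast hqJ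
        push_cast at h1 ⊢
        rw [hJ1'] at h1 h2
        push_cast at h2
        linarith
      have hn2 : n ≤ 2 * j := by
        have h1 : n * y0.natAbs ≤ (J1 + 1) * y0.natAbs := by
          calc n * y0.natAbs ≤ J1 + y0.natAbs := hcard
            _ ≤ J1 * y0.natAbs + y0.natAbs :=
                Nat.add_le_add_right (Nat.le_mul_of_pos_right _ hq0) _
            _ = (J1 + 1) * y0.natAbs := by ring
        have h2 := le_of_mul_le_mul_right h1 hq0
        omega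
      have hβ : (0 : ℤ) ≤ (b m' : ℤ) - b m := by
        have : (b m : ℤ) ≤ b m' := by exact_mod_cast h
        linarith
      have hfin := weakidx3_out (n := n) hj ht hτ (hβeq m m') hβ (hdist m m').2 hqabs
        (by exact_mod_cast hq0) hn1 (by exact_mod_cast hn2) hdet
      have hfin' : ((b m + n * (2 * j ^ 2 + n) : ℕ) : ℤ) ≤ (b m' : ℤ) := by
        push_cast
        linarith
      exact_mod_cast hfin'
    · intro m m₁ h₁ m₂ h₂ hne
      have e1 := (Finset.mem_filter.1 h₁).2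
      have e2 := (Finset.mem_filter.1 h₂).2
      have hpar : ((ii m₂ : ℤ) - ii m₁) * y0 = ((jj m₂ : ℤ) - jj m₁) * x0 := by
        linear_combination e2 - e1
      have hfin := weakidx3_in hs2 hτ hcop hy0 (hαeq m₁ m₂) (hne0 m₁ m₂ hne) hpar
      rcases le_abs.1 hfin with h3 | h3
      · left
        have h4 : ((a m₁ + 2 * j ^ 2 : ℕ) : ℤ) ≤ (a m₂ : ℤ) := by push_cast; linarith
        exact_mod_cast h4
      · right
        have h4 : ((a m₂ + 2 * j ^ 2 : ℕ) : ℤ) ≤ (a m₁ : ℤ) := by push_cast; linarith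
        exact_mod_cast h4

end MW
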