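import Pool.Agent.Lib.MP_a542cf_al.R.DetCoeff

/-! MX-ZeroEst: a zero estimate at `l` for sums of few generalized monomials. -/

namespace MW

open Polynomial

section
variable {K : Type*} [Field K]

/-- the derivation `X (X-1) (X-l) d/dX` -/
private noncomputable def ze_D (l : K) (F : K[X]) : K[X] :=
  (X - 1) * (X - C l) * (X * derivative F)

/-- the logarithmic derivative (times `X (X-1) (X-l)`) of `X^a (X-l)^b (X-1)^c` -/
private noncomputable def ze_q (l : K) (a b c : ℕ) : K[X] :=
  C (a : K) * ((X - 1) * (X - C l)) + C (b : K) * (X * (X - 1)) + C (c : K) * (X * (X - C l))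

private noncomputable def ze_th (l : K) (a b c : ℕ) (f : K[X]) : K[X] :=
  (X - 1) * (X - C l) * (X * derivative f) + ze_q l a b c * f

private noncomputable def ze_G (l : K) (a b c : ℕ) : K[X] :=
  X ^ a * (X - C l) ^ b * (X - 1) ^ c

private theorem ze_pow (P : K[X]) (hP : derivative P = 1) (n : ℕ) :
    P * derivative (P ^ n) = C (n : K) * P ^ n := by
  rcases n with _ | n
  · simp
  · rw [derivative_pow_succ, hP]
    simp only [mul_one, Nat.cast_succ, map_add, map_natCast, map_one]
    ring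

private theorem ze_DG (l : K) (a b c : ℕ) : ze_D l (ze_G l a b c) = ze_q l a b c * ze_G l a b c := by
  have h1 := ze_pow (X : K[X]) (by simp) a
  have h2 := ze_pow (X - C l : K[X]) (by simp) b
  have h3 := ze_pow (X - 1 : K[X]) (by simp) c
  unfold ze_D ze_G ze_q
  rw [derivative_mul, derivative_mul]
  linear_combination (X - 1) * (X - C l) * (X - C l) ^ b * (X - 1) ^ c * h1 +
    X * (X - 1) * X ^ a * (X - 1) ^ c * h2 + X * (X - C l) * X ^ a * (X - C l) ^ b * h3

private theorem ze_D_mul (l : K) (a b c : ℕ) (f : K[X]) :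
    ze_D l (f * ze_G l a b c) = ze_th l a b c f * ze_G l a b c := by
  have h := ze_DG l a b c
  unfold ze_th
  unfold ze_D at h ⊢
  rw [derivative_mul]
  linear_combination f * h

private theorem ze_D_sum {ι : Type*} (s : Finset ι) (l : K) (F : ι → K[X]) :
    ze_D l (∑ k ∈ s, F k) = ∑ k ∈ s, ze_D l (F k) := by
  unfold ze_D
  rw [derivative_sum, Finset.mul_sum, Finset.mul_sum]

private theorem ze_D_iter {ι : Type*} (s : Finset ι) (l : K) (a b c : ι → ℕ) (f : ι → K[X])
    (i : ℕ) : (ze_D l)^[i] (∑ k ∈ s, f k * ze_G l (a k) (b k) (c k)) =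
      ∑ k ∈ s, (ze_th l (a k) (b k) (c k))^[i] (f k) * ze_G l (a k) (b k) (c k) := by
  induction i with
  | zero => rfl
  | succ i ih =>
    rw [Function.iterate_succ_apply', ih, ze_D_sum]
    refine Finset.sum_congr rfl fun k _ => ?_
    rw [ze_D_mul, Function.iterate_succ_apply']

private theorem ze_dvd (l : K) (E : ℕ) (F : K[X]) (h : (X - C l) ^ E ∣ F) :
    (X - C l) ^ E ∣ ze_D l F := by
  obtain ⟨g, rfl⟩ := h
  have h2 := ze_pow (X - C l : K[X]) (by simp) E
  refine ⟨(X - 1) * X * (C (E : K) * g + (X - C l) * derivative g), ?_⟩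
  unfold ze_D
  rw [derivative_mul]
  linear_combination (X - 1) * X * g * h2

private theorem ze_dvd_iter (l : K) (E : ℕ) (F : K[X]) (h : (X - C l) ^ E ∣ F) (i : ℕ) :
    (X - C l) ^ E ∣ (ze_D l)^[i] F := by
  induction i with
  | zero => exact h
  | succ i ih =>
    rw [Function.iterate_succ_apply']
    exact ze_dvd l E _ ih

private theorem ze_quad (α β γ : K) : (C α * X ^ 2 + C β * X + C γ : K[X]).natDegree ≤ 2 ∧
    (C α * X ^ 2 + C β * X + C γ : K[X]).coeff 2 = α := by
  constructor
  · exact natDegree_quadratic_le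
  · simp

private theorem ze_q_eq (l : K) (a b c : ℕ) : ze_q l a b c =
    C ((a : K) + b + c) * X ^ 2 + C (-((a : K) * (1 + l) + b + c * l)) * X + C ((a : K) * l) := by
  unfold ze_q
  simp only [map_add, map_mul, map_neg, map_one]
  ring

private theorem ze_u_eq (l : K) : ((X - 1) * (X - C l) : K[X]) =
    C 1 * X ^ 2 + C (-(1 + l)) * X + C l := by
  simp only [map_add, map_neg, map_one]
  ring

private theorem ze_xd (g : K[X]) (m : ℕ) (h : g.natDegree ≤ m) :
    (X * derivative g).natDegree ≤ m ∧ (X * derivative g).coeff m = m * g.coeff m := by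
  rcases m with _ | m
  · have : g = C (g.coeff 0) := eq_C_of_natDegree_le_zero h
    rw [this]
    simp
  · constructor
    · refine natDegree_mul_le.trans ?_
      have := natDegree_derivative_le g
      rw [natDegree_X]
      omega
    · rw [coeff_X_mul, coeff_derivative]
      push_cast
      ring

private theorem ze_th_coeff (l : K) (a b c : ℕ) (g : K[X]) (m : ℕ) (h : g.natDegree ≤ m) :
    (ze_th l a b c g).natDegree ≤ m + 2 ∧
      (ze_th l a b c g).coeff (m + 2) = ((m : K) + a + b + c) * g.coeff m := by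
  have h1 := ze_xd g m h
  have h2 := ze_quad (1 : K) (-(1 + l)) l
  have h3 := ze_quad ((a : K) + b + c) (-((a : K) * (1 + l) + b + c * l)) ((a : K) * l)
  rw [← ze_u_eq] at h2
  rw [← ze_q_eq] at h3
  unfold ze_th
  constructor
  · refine natDegree_add_le_of_degree_le ?_ ?_
    · refine natDegree_mul_le.trans ?_
      have := h2.1
      have := h1.1
      omega
    · refine natDegree_mul_le.trans ?_
      have := h3.1
      omega
  · rw [coeff_add, add_comm m 2, coeff_mul_add_eq_of_natDegree_le h2.1 h1.1,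
      coeff_mul_add_eq_of_natDegree_le h3.1 h, h2.2, h3.2, h1.2]
    ring

private theorem ze_iter_coeff (l : K) (a b c : ℕ) (g : K[X]) (m : ℕ) (h : g.natDegree ≤ m)
    (i : ℕ) : ((ze_th l a b c)^[i] g).natDegree ≤ m + 2 * i ∧
      ((ze_th l a b c)^[i] g).coeff (m + 2 * i) =
        g.coeff m * ∏ r ∈ Finset.range i, (((m : K) + a + b + c) + 2 * r) := by
  induction i with
  | zero => simpa using h
  | succ i ih =>
    rw [Function.iterate_succ_apply']
    have h1 := ze_th_coeff l a b c _ _ ih.1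
    refine ⟨by rw [mul_add, ← add_assoc]; exact h1.1, ?_⟩
    rw [show m + 2 * (i + 1) = m + 2 * i + 2 by ring, h1.2, ih.2, Finset.prod_range_succ]
    push_cast
    ring

private theorem ze_vdm {n : ℕ} (v : Fin n → K) (hv : Function.Injective v) :
    (Matrix.of fun i j : Fin n => ∏ r ∈ Finset.range (j : ℕ), (v i + 2 * r)).det ≠ 0 := by
  have h := Matrix.det_eval_matrixOfPolynomials_eq_det_vandermonde v
    (fun j : Fin n => ∏ r ∈ Finset.range (j : ℕ), (X + C (2 * (r : K)))) ?_ ?_
  · have h2 : (Matrix.of fun i j : Fin n => ∏ r ∈ Finset.range (j : ℕ), (v i + 2 * r)) =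
        Matrix.of (fun i j : Fin n =>
          (∏ r ∈ Finset.range (j : ℕ), (X + C (2 * (r : K))) : K[X]).eval (v i)) := by
      ext i j
      simp [eval_prod]
    rw [h2, ← h]
    exact Matrix.det_vandermonde_ne_zero_iff.2 hv
  · intro j
    rw [natDegree_prod_of_monic _ _ fun r _ => monic_X_add_C _,
      Finset.sum_congr rfl fun r _ => natDegree_X_add_C _]
    simp
  · intro j
    exact monic_prod_of_monic _ _ fun r _ => monic_X_add_C _

end

/-- Let `G k = X^(a k) (X-l)^(b k) (X-1)^(b0 - b k)` and `f k ≠ 0` of degree `< A`, where the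
`a k` differ pairwise by at least `A`. With `n` terms the sum `∑ f k * G k` vanishes at `l` to order
less than `b k0 + n (A + n)` for every `k0`. -/
theorem zeroEst {K : Type*} [Field K] (p : ℕ) [Fact p.Prime] [CharP K p] (l : K) (h0 : l ≠ 0)
    (h1 : l ≠ 1) {ι : Type*} [Fintype ι] [DecidableEq ι] (a b : ι → ℕ) (b0 : ℕ)
    (hb : ∀ k, b k ≤ b0) (A : ℕ) (hp : ∀ k, a k + A ≤ p)
    (ha : ∀ k k', k ≠ k' → a k + A ≤ a k' ∨ a k' + A ≤ a k)
    (f : ι → K[X]) (hf0 : ∀ k, f k ≠ 0) (hf : ∀ k, (f k).degree < (A : WithBot ℕ)) (k0 : ι) :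
    ¬ (X - C l) ^ (b k0 + Fintype.card ι * (A + Fintype.card ι)) ∣
      ∑ k, f k * (X ^ (a k) * (X - C l) ^ (b k) * (X - 1) ^ (b0 - b k)) := by
  intro hdvd
  set n := Fintype.card ι with hn
  have hn1 : 1 ≤ n := Fintype.card_pos_iff.2 ⟨k0⟩
  have hdA : ∀ k, (f k).natDegree < A := fun k =>
    (natDegree_lt_iff_degree_lt (hf0 k)).2 (hf k)
  let e : ι ≃ Fin n := Fintype.equivFin ι
  let M : Matrix ι ι K[X] := fun i k =>
    (ze_th l (a k) (b k) (b0 - b k))^[(e i : ℕ)] (f k)
  have hM : ∀ i k, (M i k).natDegree ≤ (f k).natDegree + 2 * (e i : ℕ) := fun i k =>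
    (ze_iter_coeff l (a k) (b k) (b0 - b k) (f k) _ le_rfl (e i : ℕ)).1
  obtain ⟨d1, d2⟩ := det_coeff M (fun k => (f k).natDegree) (fun i => 2 * (e i : ℕ)) hM
  -- the distinct numbers
  let μ : ι → K := fun k => (((f k).natDegree + a k : ℕ) : K) + b0
  have hμ : Function.Injective μ := by
    intro k k' hk
    by_contra hne
    have h2 : (((f k).natDegree + a k : ℕ) : K) = (((f k').natDegree + a k' : ℕ) : K) :=
      add_right_cancel hk
    have h3 := CharP.natCast_injOn_Iio K p (show (f k).natDegree + a k ∈ Set.Iio p from by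
      have := hdA k; have := hp k; simp only [Set.mem_Iio]; omega)
      (show (f k').natDegree + a k' ∈ Set.Iio p from by
      have := hdA k'; have := hp k'; simp only [Set.mem_Iio]; omega) h2
    have := hdA k
    have := hdA k'
    rcases ha k k' hne with h4 | h4 <;> omega
  have hcoef : ∀ i k, (M i k).coeff ((f k).natDegree + 2 * (e i : ℕ)) =
      (f k).leadingCoeff * ∏ r ∈ Finset.range (e i : ℕ), (μ k + 2 * r) := by
    intro i k
    rw [(ze_iter_coeff l (a k) (b k) (b0 - b k) (f k) _ le_rfl (e i : ℕ)).2]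
    have h5 : (((f k).natDegree : K) + a k + b k + ((b0 - b k : ℕ) : K)) = μ k := by
      have h6 : ((b0 - b k : ℕ) : K) = (b0 : K) - b k := by
        rw [Nat.cast_sub (hb k)]
      simp only [μ]
      rw [h6]
      push_cast
      ring
    rw [h5]
    rfl
  have hdet0 : (Matrix.of fun i k => (M i k).coeff ((f k).natDegree + 2 * (e i : ℕ))).det ≠ 0 := by
    have h7 : (Matrix.of fun i k => (M i k).coeff ((f k).natDegree + 2 * (e i : ℕ))) =
        (Matrix.of fun i k : ι => ∏ r ∈ Finset.range (e i : ℕ), (μ k + 2 * r)) *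
          Matrix.diagonal (fun k => (f k).leadingCoeff) := by
      ext i k
      rw [Matrix.mul_diagonal]
      simp only [Matrix.of_apply]
      rw [hcoef, mul_comm]
    rw [h7, Matrix.det_mul, Matrix.det_diagonal]
    refine mul_ne_zero ?_ (Finset.prod_ne_zero_iff.2 fun k _ => leadingCoeff_ne_zero.2 (hf0 k))
    have h8 := ze_vdm (fun j : Fin n => μ (e.symm j)) (hμ.comp e.symm.injective)
    rw [← Matrix.det_transpose, ← Matrix.det_submatrix_equiv_self e] at h8
    convert h8 using 2
    ext i k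
    simp [Matrix.submatrix_apply, Matrix.transpose_apply]
  have hdet : M.det ≠ 0 := by
    intro h
    rw [h] at d2
    exact hdet0 (by rw [← d2]; simp)
  -- Cramer
  have hcr : ∀ k, ∑ i, M.adjugate k0 i * M i k = if k0 = k then M.det else 0 := by
    intro k
    have h9 := congrFun (congrFun (Matrix.adjugate_mul M) k0) k
    rw [Matrix.mul_apply] at h9
    rw [h9, Matrix.smul_apply, Matrix.one_apply, smul_eq_mul]
    split_ifs <;> simp
  have hsum : ∑ i, M.adjugate k0 i * (ze_D l)^[(e i : ℕ)]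
      (∑ k, f k * ze_G l (a k) (b k) (b0 - b k)) = M.det * ze_G l (a k0) (b k0) (b0 - b k0) := by
    have h10 : ∀ i, M.adjugate k0 i * (ze_D l)^[(e i : ℕ)]
        (∑ k, f k * ze_G l (a k) (b k) (b0 - b k)) =
        ∑ k, M.adjugate k0 i * M i k * ze_G l (a k) (b k) (b0 - b k) := by
      intro i
      rw [ze_D_iter, Finset.mul_sum]
      exact Finset.sum_congr rfl fun k _ => (mul_assoc _ _ _).symm
    rw [Finset.sum_congr rfl fun i _ => h10 i, Finset.sum_comm]
    have h11 : ∀ k, ∑ i, M.adjugate k0 i * M i k * ze_G l (a k) (b k) (b0 - b k) =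
        if k0 = k then M.det * ze_G l (a k) (b k) (b0 - b k) else 0 := by
      intro k
      rw [← Finset.sum_mul, hcr]
      split_ifs <;> simp
    rw [Finset.sum_congr rfl fun k _ => h11 k, Finset.sum_ite_eq, if_pos (Finset.mem_univ _)]
  have hdvd2 : (X - C l) ^ (b k0 + n * (A + n)) ∣ M.det * ze_G l (a k0) (b k0) (b0 - b k0) := by
    rw [← hsum]
    exact Finset.dvd_sum fun i _ => (ze_dvd_iter l _ _ hdvd _).mul_left _
  have hXl : (X - C l : K[X]) ≠ 0 := X_sub_C_ne_zero l
  have hdvd3 : (X - C l) ^ (n * (A + n)) ∣ M.det * (X ^ (a k0) * (X - 1) ^ (b0 - b k0)) := by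
    rw [pow_add] at hdvd2
    have h12 : M.det * ze_G l (a k0) (b k0) (b0 - b k0) =
        (X - C l) ^ (b k0) * (M.det * (X ^ (a k0) * (X - 1) ^ (b0 - b k0))) := by
      unfold ze_G
      ring
    rw [h12] at hdvd2
    exact (mul_dvd_mul_iff_left (pow_ne_zero _ hXl)).1 hdvd2
  have hcop : IsCoprime ((X - C l) ^ (n * (A + n)) : K[X]) (X ^ (a k0) * (X - 1) ^ (b0 - b k0)) := by
    refine IsCoprime.pow_left (IsCoprime.mul_right (IsCoprime.pow_right ?_) (IsCoprime.pow_right ?_))
    · have := isCoprime_X_sub_C_of_isUnit_sub (a := l) (b := (0 : K)) (by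
        rw [sub_zero]; exact isUnit_iff_ne_zero.2 h0)
      rwa [C_0, sub_zero] at this
    · have := isCoprime_X_sub_C_of_isUnit_sub (a := l) (b := (1 : K))
        (isUnit_iff_ne_zero.2 (sub_ne_zero.2 h1))
      rwa [C_1] at this
  have hdvd4 : (X - C l) ^ (n * (A + n)) ∣ M.det := hcop.dvd_of_dvd_mul_right hdvd3
  have hle := natDegree_le_of_dvd hdvd4 hdet
  rw [natDegree_pow, natDegree_X_sub_C, mul_one] at hle
  have hs1 : ∑ k, (f k).natDegree ≤ n * (A - 1) := by
    calc ∑ k, (f k).natDegree ≤ ∑ _k : ι, (A - 1) :=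
          Finset.sum_le_sum fun k _ => by have := hdA k; omega
      _ = n * (A - 1) := by rw [Finset.sum_const, Finset.card_univ, smul_eq_mul]
  have hs2 : ∑ i : ι, 2 * (e i : ℕ) = n * (n - 1) := by
    rw [Equiv.sum_comp e (fun j : Fin n => 2 * (j : ℕ)), Fin.sum_univ_eq_sum_range (fun j => 2 * j) n,
      ← Finset.mul_sum, mul_comm, Finset.sum_range_id_mul_two]
  have hA1 : 1 ≤ A := by have := hdA k0; omega
  have h13 : n * (A + n) ≤ n * (A - 1) + n * (n - 1) := by
    rw [hs2] at d1
    omega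
  obtain ⟨A', rfl⟩ : ∃ A', A = A' + 1 := ⟨A - 1, by omega⟩
  obtain ⟨n', hn'⟩ : ∃ n', n = n' + 1 := ⟨n - 1, by omega⟩
  rw [hn'] at h13
  simp only [Nat.add_sub_cancel] at h13
  nlinarith

end MW
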